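import Pool.Agent.R859.FL.Kap

/-! Moments and bounds of the density `dens`. -/

open MeasureTheory Real Set
open scoped ENNReal

namespace R859.FL

lemma wt_zero_of {w q : ℝ} (h : 1 ≤ |w| + |q|) : wt (w+q) (w-q) = 0 := by
  unfold wt
  have h1 : 1 ≤ |w+q| ∨ 1 ≤ |w-q| := by
    by_contra hc
    push Not at hc
    have h2 := abs_lt.1 hc.1
    have h3 := abs_lt.1 hc.2
    have : |w| + |q| < 1 := by
      rcases abs_cases w with ⟨e, _⟩ | ⟨e, _⟩ <;> rcases abs_cases q with ⟨e', _⟩ | ⟨e', _⟩ <;>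
        rw [e, e'] <;> linarith [h2.1, h2.2, h3.1, h3.2]
    linarith
  rcases h1 with h1 | h1
  · rw [kap_zero h1]; simp
  · rw [kap_zero h1]; simp

lemma dens_zero {w : ℝ} (h : 1 ≤ |w|) : dens w = 0 := by
  unfold dens
  have : ∀ q, ENNReal.ofReal (2 * wt (w + q) (w - q)) = 0 := by
    intro q
    rw [wt_zero_of (by linarith [abs_nonneg q])]
    simp
  simp [this]

lemma dens_neg (w : ℝ) : dens (-w) = dens w := by
  unfold dens
  congr 1
  ext q
  congr 2
  unfold wt
  have e1 : -w + q = -(w - q) := by ring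
  have e2 : -w - q = -(w + q) := by ring
  rw [e1, e2, kap_neg, kap_neg]
  ring

lemma ofReal_int (f : ℝ → ℝ) (hf : Continuous f) (h0 : ∀ x, 0 ≤ f x) :
    ∫⁻ x in Ioo 0 π, ENNReal.ofReal (f x) = ENNReal.ofReal (∫ x in (0:ℝ)..π, f x) := by
  rw [intervalIntegral.integral_of_le Real.pi_pos.le, integral_Ioc_eq_integral_Ioo]
  rw [ofReal_integral_eq_lintegral_ofReal]
  · exact (hf.continuousOn.integrableOn_compact isCompact_Icc).mono_set Ioo_subset_Icc_self
  · exact Filter.Eventually.of_forall h0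

lemma kap_second : ∫⁻ q, ENNReal.ofReal (q^2) * ENNReal.ofReal (kap q) = ENNReal.ofReal (1/2) := by
  rw [kap_lintegral (fun q => ENNReal.ofReal (q^2))]
  rw [lintegral_mul_const _ (by fun_prop)]
  rw [ofReal_int (fun x => cos x ^ 2) (by fun_prop) (fun x => sq_nonneg _)]
  rw [integral_cos_sq, ← ENNReal.ofReal_mul (by simp; positivity)]
  congr 1
  simp
  field_simp

lemma dens_moment (k : ℕ) : ∫⁻ w, ENNReal.ofReal (w^(2*k)) * dens w = ENNReal.ofReal (e k) := by
  rw [dens_fubini (fun w => ENNReal.ofReal (w^(2*k))) (by fun_prop)]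
  have hpow : ∀ x : ℝ, 0 ≤ x^(2*k) := fun x => by rw [pow_mul]; positivity
  have h1 : ∀ P : ℝ, ∫⁻ M, ENNReal.ofReal (((P+M)/2)^(2*k)) * ENNReal.ofReal (wt P M)
      = (ENNReal.ofReal (∫ b in (0:ℝ)..π, ((P + cos b)/2)^(2*k) * (P - cos b)^2) * ENNReal.ofReal π⁻¹)
        * ENNReal.ofReal (kap P) := by
    intro P
    have h2 : ∀ M : ℝ, ENNReal.ofReal (((P+M)/2)^(2*k)) * ENNReal.ofReal (wt P M)
        = ENNReal.ofReal (kap P) * (ENNReal.ofReal (((P+M)/2)^(2*k) * (P-M)^2) * ENNReal.ofReal (kap M)) := by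
      intro M
      unfold wt
      rw [← ENNReal.ofReal_mul (hpow _), ← ENNReal.ofReal_mul (mul_nonneg (hpow _) (sq_nonneg _)),
        ← ENNReal.ofReal_mul (kap_nonneg _)]
      congr 1
      ring
    simp_rw [h2]
    rw [lintegral_const_mul _ (by fun_prop)]
    rw [kap_lintegral (fun M => ENNReal.ofReal (((P+M)/2)^(2*k) * (P-M)^2))]
    rw [lintegral_mul_const _ (by fun_prop)]
    rw [ofReal_int (fun b => ((P + cos b)/2)^(2*k) * (P - cos b)^2) (by fun_prop)
      (fun b => mul_nonneg (hpow _) (sq_nonneg _))]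
    rw [mul_comm]
  simp_rw [h1]
  rw [kap_lintegral (fun P => ENNReal.ofReal (∫ b in (0:ℝ)..π, ((P + cos b)/2)^(2*k) * (P - cos b)^2) * ENNReal.ofReal π⁻¹)]
  have hcont : Continuous fun a : ℝ => ∫ b in (0:ℝ)..π, ((cos a + cos b)/2)^(2*k) * (cos a - cos b)^2 := by
    apply intervalIntegral.continuous_parametric_intervalIntegral_of_continuous' (by fun_prop)
  rw [lintegral_mul_const _ (hcont.measurable.ennreal_ofReal.mul_const _),
    lintegral_mul_const _ hcont.measurable.ennreal_ofReal]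
  rw [ofReal_int (fun a => ∫ b in (0:ℝ)..π, ((cos a + cos b)/2)^(2*k) * (cos a - cos b)^2) hcont]
  · rw [ang, ← ENNReal.ofReal_mul, ← ENNReal.ofReal_mul]
    · congr 1
      field_simp
    · have : 0 ≤ e k := by unfold e; have := m_pos k; positivity
      positivity
    · have : 0 ≤ e k := by unfold e; have := m_pos k; positivity
      positivity
  · intro a
    exact intervalIntegral.integral_nonneg Real.pi_pos.le (fun b _ => mul_nonneg (hpow _) (sq_nonneg _))

lemma scaled (C s : ℝ) (hC : 0 ≤ C) (hs : 0 < s) :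
    ∫⁻ q, ENNReal.ofReal (C * q^2 * kap (q/s)) = ENNReal.ofReal (C * s^3 / 2) := by
  have h := lintegral_scale (fun y => ENNReal.ofReal (C * (s*y)^2 * kap y)) (by fun_prop) s⁻¹ (by positivity)
  have h1 : ∫⁻ x, (fun y => ENNReal.ofReal (C * (s*y)^2 * kap y)) (s⁻¹ * x)
      = ∫⁻ q, ENNReal.ofReal (C * q^2 * kap (q/s)) := by
    congr 1
    ext q
    have e1 : s * (q / s) = q := by field_simp
    have e2 : s⁻¹ * q = q / s := by field_simp
    simp only [e2, e1]
  rw [h1] at h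
  rw [h]
  have h2 : ∀ y : ℝ, ENNReal.ofReal (C * (s*y)^2 * kap y)
      = ENNReal.ofReal (C * s^2) * (ENNReal.ofReal (y^2) * ENNReal.ofReal (kap y)) := by
    intro y
    rw [← ENNReal.ofReal_mul (sq_nonneg y), ← ENNReal.ofReal_mul (by positivity)]
    congr 1
    ring
  simp_rw [h2]
  rw [lintegral_const_mul _ (by fun_prop), kap_second, inv_inv, ← ENNReal.ofReal_mul (by positivity),
    ← ENNReal.ofReal_mul (by positivity)]
  congr 1
  ring

lemma kap_prod {w q : ℝ} (hw0 : 0 < w) (hw1 : w < 1) (hq : |q| < 1 - w) :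
    kap (w+q) * kap (w-q) = kap (q/(1-w)) / ((1-w) * π * √((1+w)^2 - q^2)) := by
  have hs : 0 < 1 - w := by linarith
  have hq2 : q^2 < (1-w)^2 := by
    rw [← sq_abs q]
    exact pow_lt_pow_left₀ hq (abs_nonneg q) (by norm_num)
  have hA : 0 < (1-w)^2 - q^2 := by linarith
  have hB : 0 < (1+w)^2 - q^2 := by nlinarith
  unfold kap
  have e1 : 1 - (q/(1-w))^2 = ((1-w)^2 - q^2) / (1-w)^2 := by
    field_simp
  rw [e1, Real.sqrt_div hA.le, Real.sqrt_sq hs.le]
  rw [← mul_inv]
  have e2 : (π * √(1 - (w+q)^2)) * (π * √(1 - (w-q)^2)) = π^2 * (√((1-w)^2 - q^2) * √((1+w)^2 - q^2)) := by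
    have hqq := abs_lt.1 hq
    have h3 : 0 ≤ 1 - (w+q)^2 := by nlinarith [hqq.1, hqq.2]
    have : √(1 - (w+q)^2) * √(1 - (w-q)^2) = √((1-w)^2 - q^2) * √((1+w)^2 - q^2) := by
      rw [← Real.sqrt_mul h3, ← Real.sqrt_mul hA.le]
      congr 1
      ring
    calc (π * √(1 - (w+q)^2)) * (π * √(1 - (w-q)^2))
        = π^2 * (√(1 - (w+q)^2) * √(1 - (w-q)^2)) := by ring
      _ = _ := by rw [this]
  rw [e2]
  have h4 : 0 < √((1-w)^2 - q^2) := Real.sqrt_pos.2 hA
  have h5 : 0 < √((1+w)^2 - q^2) := Real.sqrt_pos.2 hB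
  field_simp

lemma dens_le {w : ℝ} (hw0 : 0 < w) (hw1 : w < 1) :
    dens w ≤ ENNReal.ofReal (2/π * (1-w)^2 / w) := by
  have hs : 0 < 1 - w := by linarith
  have h := scaled (4/(π * w * (1-w))) (1-w) (by positivity) hs
  have e1 : 4/(π * w * (1-w)) * (1-w)^3/2 = 2/π * (1-w)^2 / w := by
    field_simp
    ring
  rw [e1] at h
  rw [← h]
  unfold dens
  apply lintegral_mono
  intro q
  apply ENNReal.ofReal_le_ofReal
  by_cases hq : |q| < 1 - w
  · have hk := kap_prod hw0 hw1 hq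
    have hq2 : q^2 < (1-w)^2 := by
      rw [← sq_abs q]
      exact pow_lt_pow_left₀ hq (abs_nonneg q) (by norm_num)
    have e2 : 2 * wt (w+q) (w-q) = 8 * q^2 * (kap (w+q) * kap (w-q)) := by unfold wt; ring
    rw [e2, hk]
    have h5 : 2 * w ≤ √((1+w)^2 - q^2) := by
      apply Real.le_sqrt_of_sq_le
      nlinarith
    have hkn := kap_nonneg (q/(1-w))
    have : 8 * q^2 * (kap (q/(1-w)) / ((1-w) * π * √((1+w)^2 - q^2)))
        ≤ 8 * q^2 * (kap (q/(1-w)) / ((1-w) * π * (2*w))) := by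
      apply mul_le_mul_of_nonneg_left _ (by positivity)
      apply div_le_div_of_nonneg_left hkn (by positivity)
      apply mul_le_mul_of_nonneg_left h5 (by positivity)
    refine this.trans (le_of_eq ?_)
    field_simp
    ring
  · push Not at hq
    rw [wt_zero_of (by rw [abs_of_pos hw0]; linarith)]
    have hkn := kap_nonneg (q/(1-w))
    simp only [mul_zero]
    positivity

lemma le_dens {w : ℝ} (hw0 : 0 < w) (hw1 : w < 1) :
    ENNReal.ofReal (4/π * (1-w)^2 / (1+w)) ≤ dens w := by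
  have hs : 0 < 1 - w := by linarith
  have h := scaled (8/(π * (1+w) * (1-w))) (1-w) (by positivity) hs
  have e1 : 8/(π * (1+w) * (1-w)) * (1-w)^3/2 = 4/π * (1-w)^2 / (1+w) := by
    field_simp
    ring
  rw [e1] at h
  rw [← h]
  unfold dens
  apply lintegral_mono
  intro q
  apply ENNReal.ofReal_le_ofReal
  by_cases hq : |q| < 1 - w
  · have hk := kap_prod hw0 hw1 hq
    have hq2 : q^2 < (1-w)^2 := by
      rw [← sq_abs q]
      exact pow_lt_pow_left₀ hq (abs_nonneg q) (by norm_num)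
    have e2 : 2 * wt (w+q) (w-q) = 8 * q^2 * (kap (w+q) * kap (w-q)) := by unfold wt; ring
    rw [e2, hk]
    have h5 : √((1+w)^2 - q^2) ≤ 1 + w := by
      apply Real.sqrt_le_iff.2
      constructor
      · positivity
      · nlinarith
    have h6 : 0 < √((1+w)^2 - q^2) := Real.sqrt_pos.2 (by nlinarith)
    have hkn := kap_nonneg (q/(1-w))
    have : 8 * q^2 * (kap (q/(1-w)) / ((1-w) * π * (1+w)))
        ≤ 8 * q^2 * (kap (q/(1-w)) / ((1-w) * π * √((1+w)^2 - q^2))) := by
      apply mul_le_mul_of_nonneg_left _ (by positivity)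
      apply div_le_div_of_nonneg_left hkn (by positivity)
      apply mul_le_mul_of_nonneg_left h5 (by positivity)
    refine le_trans (le_of_eq ?_) this
    field_simp
  · push Not at hq
    have : 1 ≤ |q/(1-w)| := by
      rw [abs_div, abs_of_pos hs, le_div_iff₀ hs]
      linarith
    rw [kap_zero this]
    simp only [mul_zero]
    have := wt_nonneg (w+q) (w-q)
    positivity

end R859.FL
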