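import Pool.Agent.R859.FL.Ineq

/-! Domination of the product measure by the dilated measure. -/

open MeasureTheory Real Set
open scoped ENNReal

namespace R859.FL

noncomputable def kA (Pf : ℝ → ℝ≥0∞) (u v : ℝ) : ℝ≥0∞ :=
  if u < v ∧ u*v ≤ 1 then ENNReal.ofReal ((u-v)^2*(u*v)) * Pf (u*v) else 0

noncomputable def kB (Pf : ℝ → ℝ≥0∞) (u v : ℝ) : ℝ≥0∞ :=
  if u < v ∧ 1 < u*v then ENNReal.ofReal ((u-v)^2*(u*v)) * Pf (u*v) else 0

lemma kA_meas {Pf : ℝ → ℝ≥0∞} (hP : Measurable Pf) : Measurable (Function.uncurry (kA Pf)) := by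
  unfold kA Function.uncurry
  apply Measurable.ite
  · exact (measurableSet_lt measurable_fst measurable_snd).inter
      (measurableSet_le (measurable_fst.mul measurable_snd) measurable_const)
  · exact (by fun_prop : Measurable fun p : ℝ × ℝ => ENNReal.ofReal ((p.1-p.2)^2*(p.1*p.2))).mul
      (hP.comp (measurable_fst.mul measurable_snd))
  · exact measurable_const

lemma kB_meas {Pf : ℝ → ℝ≥0∞} (hP : Measurable Pf) : Measurable (Function.uncurry (kB Pf)) := by
  unfold kB Function.uncurry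
  apply Measurable.ite
  · exact (measurableSet_lt measurable_fst measurable_snd).inter
      (measurableSet_lt measurable_const (measurable_fst.mul measurable_snd))
  · exact (by fun_prop : Measurable fun p : ℝ × ℝ => ENNReal.ofReal ((p.1-p.2)^2*(p.1*p.2))).mul
      (hP.comp (measurable_fst.mul measurable_snd))
  · exact measurable_const

@[fun_prop]
lemma Gnu_meas : Measurable Gnu := by
  unfold Gnu
  exact Measurable.ite measurableSet_Iio (by fun_prop) (by fun_prop)

@[fun_prop]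
lemma gnu_meas : Measurable gnu := by
  unfold gnu
  exact Measurable.ite measurableSet_Iic (by fun_prop) (by fun_prop)

lemma ae_ne_one : ∀ᵐ u : ℝ, u ≠ 1 := by
  have h := measure_singleton (μ := (volume : Measure ℝ)) 1
  rw [ae_iff]
  simp

noncomputable def rI (Pf : ℝ → ℝ≥0∞) (x : ℝ) : ℝ≥0∞ := ENNReal.ofReal (x*(2-x)^2*gnu x) * Pf (2*x)

lemma rI_meas {Pf : ℝ → ℝ≥0∞} (hP : Measurable Pf) : Measurable (rI Pf) := by
  unfold rI
  exact (by fun_prop : Measurable fun x : ℝ => ENNReal.ofReal (x*(2-x)^2*gnu x)).mul (hP.comp (by fun_prop))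

lemma gnu_nonneg {x : ℝ} (h0 : 0 < x) (h2 : x < 2) : 0 ≤ gnu x := by
  unfold gnu
  have : 0 < 2 - x := by linarith
  split_ifs <;> positivity

lemma Gnu_nonneg {x : ℝ} (h0 : 0 < x) (h2 : x < 2) : 0 ≤ Gnu x := by
  unfold Gnu
  have h3 : 0 < 2 - x := by linarith
  split_ifs with h
  · have : 0 < 1 - x := by linarith
    positivity
  · push Not at h
    have : 0 ≤ x - 1 := by linarith
    positivity

lemma comb {a b c d : ℝ} (P : ℝ≥0∞) (ha : 0 ≤ a) (hb : 0 ≤ b) (h : a*(b*c) ≤ 3*d) :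
    ENNReal.ofReal a * (ENNReal.ofReal b * (ENNReal.ofReal c * P)) ≤ 3 * (ENNReal.ofReal d * P) := by
  have h3 : (3:ℝ≥0∞) = ENNReal.ofReal 3 := by simp
  have e1 : ENNReal.ofReal a * (ENNReal.ofReal b * (ENNReal.ofReal c * P)) = ENNReal.ofReal (a*(b*c)) * P := by
    rw [ENNReal.ofReal_mul ha, ENNReal.ofReal_mul hb, mul_assoc, mul_assoc]
  have e2 : 3 * (ENNReal.ofReal d * P) = ENNReal.ofReal (3*d) * P := by
    rw [ENNReal.ofReal_mul (by norm_num), ← h3, mul_assoc]
  rw [e1, e2]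
  exact mul_le_mul_left (ENNReal.ofReal_le_ofReal h) _

lemma stepA {Pf : ℝ → ℝ≥0∞} (hP : Measurable Pf) {v : ℝ} (hv : v ∈ Ioo (0:ℝ) 2) :
    ∫⁻ u, kA Pf u v ∂nu ≤ 3 * ∫⁻ x, (Ioc (0:ℝ) (1/2)).indicator (rI Pf) x := by
  have hv0 : 0 < v := hv.1
  have hkm : Measurable fun u => kA Pf u v := (kA_meas hP).comp (measurable_id.prodMk measurable_const)
  set Φ : ℝ → ℝ≥0∞ := (Ioo (0:ℝ) 2).indicator (fun u => ENNReal.ofReal (Gnu u) * kA Pf u v) with hΦ
  have hΦm : Measurable Φ :=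
    ((by fun_prop : Measurable fun u : ℝ => ENNReal.ofReal (Gnu u)).mul hkm).indicator measurableSet_Ioo
  have h2v : 0 < 2/v := by positivity
  have hsc := lintegral_scale Φ hΦm (2/v) h2v
  calc ∫⁻ u, kA Pf u v ∂nu = ∫⁻ u, nd u * kA Pf u v := lint_nu _ hkm
    _ ≤ ∫⁻ u, Φ u := by
        apply lintegral_mono_ae
        filter_upwards [ae_ne_one] with u hu1
        by_cases hu : u ∈ Ioo (0:ℝ) 2
        · rw [hΦ, indicator_of_mem hu]
          exact mul_le_mul_left (nd_le_G hu hu1) _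
        · rw [nd_zero hu]; simp
    _ = ENNReal.ofReal (2/v) * ∫⁻ x, Φ ((2/v)*x) := by
        rw [hsc, ← mul_assoc, ← ENNReal.ofReal_mul h2v.le, mul_inv_cancel₀ h2v.ne']
        simp
    _ = ∫⁻ x, ENNReal.ofReal (2/v) * Φ ((2/v)*x) := by
        have hm2 : Measurable (fun x => Φ ((2/v)*x)) := hΦm.comp (by fun_prop)
        rw [lintegral_const_mul _ hm2]
    _ ≤ ∫⁻ x, 3 * (Ioc (0:ℝ) (1/2)).indicator (rI Pf) x := by
        apply lintegral_mono
        intro x
        set u := (2/v)*x with hu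
        have hx : x = u*v/2 := by rw [hu]; field_simp
        simp only
        by_cases hmem : u ∈ Ioo (0:ℝ) 2
        · rw [hΦ, indicator_of_mem hmem]
          unfold kA
          by_cases hc : u < v ∧ u*v ≤ 1
          · rw [if_pos hc]
            have hxm : x ∈ Ioc (0:ℝ) (1/2) := by
              constructor
              · rw [hx]; have := hmem.1; positivity
              · rw [hx]; linarith [hc.2]
            rw [indicator_of_mem hxm]
            unfold rI
            have e2x : 2 * x = u*v := by rw [hx]; ring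
            rw [e2x]
            have hreal := ineqA hmem.1 hc.1 hv.2 hc.2
            have hg := Gnu_nonneg hmem.1 hmem.2
            apply comb _ h2v.le hg
            rw [hx]
            exact hreal
          · rw [if_neg hc]; simp
        · rw [hΦ, indicator_of_notMem hmem]; simp
    _ = 3 * ∫⁻ x, (Ioc (0:ℝ) (1/2)).indicator (rI Pf) x := by
        rw [lintegral_const_mul _ ((rI_meas hP).indicator measurableSet_Ioc)]

lemma stepB {Pf : ℝ → ℝ≥0∞} (hP : Measurable Pf) {u : ℝ} (hu : u ∈ Ioo (0:ℝ) 2) :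
    ∫⁻ v, kB Pf u v ∂nu ≤ 3 * ∫⁻ x, (Ioo (1/2:ℝ) 2).indicator (rI Pf) x := by
  have hu0 : 0 < u := hu.1
  have hkm : Measurable fun v => kB Pf u v := (kB_meas hP).comp (measurable_const.prodMk measurable_id)
  set Φ : ℝ → ℝ≥0∞ := (Ioo (0:ℝ) 2).indicator (fun v => ENNReal.ofReal (Gnu v) * kB Pf u v) with hΦ
  have hΦm : Measurable Φ :=
    ((by fun_prop : Measurable fun u : ℝ => ENNReal.ofReal (Gnu u)).mul hkm).indicator measurableSet_Ioo
  have h2v : 0 < 2/u := by positivity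
  have hsc := lintegral_scale Φ hΦm (2/u) h2v
  calc ∫⁻ v, kB Pf u v ∂nu = ∫⁻ v, nd v * kB Pf u v := lint_nu _ hkm
    _ ≤ ∫⁻ v, Φ v := by
        apply lintegral_mono_ae
        filter_upwards [ae_ne_one] with v hv1
        by_cases hv : v ∈ Ioo (0:ℝ) 2
        · rw [hΦ, indicator_of_mem hv]
          exact mul_le_mul_left (nd_le_G hv hv1) _
        · rw [nd_zero hv]; simp
    _ = ENNReal.ofReal (2/u) * ∫⁻ x, Φ ((2/u)*x) := by
        rw [hsc, ← mul_assoc, ← ENNReal.ofReal_mul h2v.le, mul_inv_cancel₀ h2v.ne']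
        simp
    _ = ∫⁻ x, ENNReal.ofReal (2/u) * Φ ((2/u)*x) := by
        have hm2 : Measurable (fun x => Φ ((2/u)*x)) := hΦm.comp (by fun_prop)
        rw [lintegral_const_mul _ hm2]
    _ ≤ ∫⁻ x, 3 * (Ioo (1/2:ℝ) 2).indicator (rI Pf) x := by
        apply lintegral_mono
        intro x
        set v := (2/u)*x with hv
        have hx : x = u*v/2 := by rw [hv]; field_simp
        simp only
        by_cases hmem : v ∈ Ioo (0:ℝ) 2
        · rw [hΦ, indicator_of_mem hmem]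
          unfold kB
          by_cases hc : u < v ∧ 1 < u*v
          · rw [if_pos hc]
            have hxm : x ∈ Ioo (1/2:ℝ) 2 := by
              constructor
              · rw [hx]; linarith [hc.2]
              · rw [hx]
                have h1 := hmem.1
                have h2 := hmem.2
                have h3 := hu.2
                nlinarith
            rw [indicator_of_mem hxm]
            unfold rI
            have e2x : 2 * x = u*v := by rw [hx]; ring
            rw [e2x]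
            have hreal := ineqB hu0 hc.1 hmem.2 hc.2
            have hg := Gnu_nonneg hmem.1 hmem.2
            apply comb _ h2v.le hg
            rw [hx]
            exact hreal
          · rw [if_neg hc]; simp
        · rw [hΦ, indicator_of_notMem hmem]; simp
    _ = 3 * ∫⁻ x, (Ioo (1/2:ℝ) 2).indicator (rI Pf) x := by
        rw [lintegral_const_mul _ ((rI_meas hP).indicator measurableSet_Ioo)]

lemma sumI {Pf : ℝ → ℝ≥0∞} (hP : Measurable Pf) :
    (∫⁻ x, (Ioc (0:ℝ) (1/2)).indicator (rI Pf) x) + (∫⁻ x, (Ioo (1/2:ℝ) 2).indicator (rI Pf) x)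
      ≤ ∫⁻ x, ENNReal.ofReal (x*(2-x)^2) * Pf (2*x) ∂nu := by
  have hm : Measurable fun x : ℝ => ENNReal.ofReal (x*(2-x)^2) * Pf (2*x) :=
    (by fun_prop : Measurable fun x : ℝ => ENNReal.ofReal (x*(2-x)^2)).mul (hP.comp (by fun_prop))
  rw [lint_nu _ hm, ← lintegral_add_left ((rI_meas hP).indicator measurableSet_Ioc)]
  apply lintegral_mono_ae
  filter_upwards [ae_ne_one] with x hx1
  by_cases hx : x ∈ Ioo (0:ℝ) 2
  · have h1 : (Ioc (0:ℝ) (1/2)).indicator (rI Pf) x + (Ioo (1/2:ℝ) 2).indicator (rI Pf) x ≤ rI Pf x := by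
      by_cases hh : x ≤ 1/2
      · rw [indicator_of_mem (show x ∈ Ioc (0:ℝ) (1/2) from ⟨hx.1, hh⟩),
          indicator_of_notMem (show x ∉ Ioo (1/2:ℝ) 2 from fun h => absurd h.1 (not_lt.2 hh))]
        simp
      · rw [indicator_of_notMem (show x ∉ Ioc (0:ℝ) (1/2) from fun h => hh h.2),
          indicator_of_mem (show x ∈ Ioo (1/2:ℝ) 2 from ⟨not_le.1 hh, hx.2⟩)]
        simp
    refine h1.trans ?_
    unfold rI
    have hx0 := hx.1
    rw [mul_comm (x*(2-x)^2) (gnu x), ENNReal.ofReal_mul (gnu_nonneg hx.1 hx.2), mul_assoc]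
    exact mul_le_mul_left (g_le_nd hx hx1) _
  · have h1 : x ∉ Ioc (0:ℝ) (1/2) := fun h => hx ⟨h.1, by linarith [h.2]⟩
    have h2 : x ∉ Ioo (1/2:ℝ) 2 := fun h => hx ⟨by linarith [h.1], h.2⟩
    rw [indicator_of_notMem h1, indicator_of_notMem h2]
    simp

theorem dom {Pf : ℝ → ℝ≥0∞} (hP : Measurable Pf) :
    ∫⁻ v, ∫⁻ u, ENNReal.ofReal ((u-v)^2*(u*v)) * Pf (u*v) ∂nu ∂nu
      ≤ 6 * nu univ * ∫⁻ x, ENNReal.ofReal (x*(2-x)^2) * Pf (2*x) ∂nu := by
  set IA := ∫⁻ x, (Ioc (0:ℝ) (1/2)).indicator (rI Pf) x with hIA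
  set IB := ∫⁻ x, (Ioo (1/2:ℝ) 2).indicator (rI Pf) x with hIB
  have hAm := kA_meas hP
  have hBm := kB_meas hP
  have cA : ∀ (f g : ℝ → ℝ), Measurable f → Measurable g → Measurable fun x => kA Pf (f x) (g x) :=
    fun f g hf hg => hAm.comp (hf.prodMk hg)
  have cB : ∀ (f g : ℝ → ℝ), Measurable f → Measurable g → Measurable fun x => kB Pf (f x) (g x) :=
    fun f g hf hg => hBm.comp (hf.prodMk hg)
  have hA1 : ∫⁻ v, ∫⁻ u, kA Pf u v ∂nu ∂nu ≤ 3 * IA * nu univ := by
    calc ∫⁻ v, ∫⁻ u, kA Pf u v ∂nu ∂nu ≤ ∫⁻ v, 3 * IA ∂nu := by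
          apply lintegral_mono_ae
          filter_upwards [nu_ae] with v hv
          exact stepA hP hv
      _ = 3 * IA * nu univ := by rw [lintegral_const]
  have hB1 : ∫⁻ u, ∫⁻ v, kB Pf u v ∂nu ∂nu ≤ 3 * IB * nu univ := by
    calc ∫⁻ u, ∫⁻ v, kB Pf u v ∂nu ∂nu ≤ ∫⁻ u, 3 * IB ∂nu := by
          apply lintegral_mono_ae
          filter_upwards [nu_ae] with v hv
          exact stepB hP hv
      _ = 3 * IB * nu univ := by rw [lintegral_const]
  have hA2 : ∫⁻ v, ∫⁻ u, kA Pf v u ∂nu ∂nu ≤ 3 * IA * nu univ := by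
    rw [lintegral_lintegral_swap]
    · exact hA1
    · exact (hAm).aemeasurable
  have hB2 : ∫⁻ v, ∫⁻ u, kB Pf u v ∂nu ∂nu ≤ 3 * IB * nu univ := by
    rw [lintegral_lintegral_swap]
    · exact hB1
    · exact (hBm.comp measurable_swap).aemeasurable
  have hpt : ∀ v u : ℝ, ENNReal.ofReal ((u-v)^2*(u*v)) * Pf (u*v)
      ≤ (kA Pf u v + kB Pf u v) + (kA Pf v u + kB Pf v u) := by
    intro v u
    have hab : ∀ u v : ℝ, u < v → ENNReal.ofReal ((u-v)^2*(u*v)) * Pf (u*v) ≤ kA Pf u v + kB Pf u v := by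
      intro u v h
      unfold kA kB
      by_cases h1 : u*v ≤ 1
      · rw [if_pos ⟨h, h1⟩]; exact le_self_add
      · rw [if_pos (show u < v ∧ 1 < u*v from ⟨h, not_le.1 h1⟩)]; exact le_add_self
    rcases lt_trichotomy u v with h | h | h
    · exact (hab u v h).trans le_self_add
    · rw [h]; simp
    · have e1 : (u-v)^2*(u*v) = (v-u)^2*(v*u) := by ring
      rw [e1, mul_comm u v]
      exact (hab v u h).trans le_add_self
  calc ∫⁻ v, ∫⁻ u, ENNReal.ofReal ((u-v)^2*(u*v)) * Pf (u*v) ∂nu ∂nu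
      ≤ ∫⁻ v, ∫⁻ u, ((kA Pf u v + kB Pf u v) + (kA Pf v u + kB Pf v u)) ∂nu ∂nu :=
        lintegral_mono fun v => lintegral_mono fun u => hpt v u
    _ = (∫⁻ v, ∫⁻ u, kA Pf u v ∂nu ∂nu + ∫⁻ v, ∫⁻ u, kB Pf u v ∂nu ∂nu)
        + (∫⁻ v, ∫⁻ u, kA Pf v u ∂nu ∂nu + ∫⁻ v, ∫⁻ u, kB Pf v u ∂nu ∂nu) := by
        have h1 : ∀ v : ℝ, ∫⁻ u, ((kA Pf u v + kB Pf u v) + (kA Pf v u + kB Pf v u)) ∂nu
            = (∫⁻ u, kA Pf u v ∂nu + ∫⁻ u, kB Pf u v ∂nu) + (∫⁻ u, kA Pf v u ∂nu + ∫⁻ u, kB Pf v u ∂nu) := by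
          intro v
          have m1 := cA (fun u => u) (fun _ => v) (by fun_prop) (by fun_prop)
          have m2 := cB (fun u => u) (fun _ => v) (by fun_prop) (by fun_prop)
          have m3 := cA (fun _ => v) (fun u => u) (by fun_prop) (by fun_prop)
          have m12 : Measurable fun u => kA Pf u v + kB Pf u v := m1.add m2
          rw [lintegral_add_left m12, lintegral_add_left m1, lintegral_add_left m3]
        simp_rw [h1]
        have n1 : Measurable fun v => ∫⁻ u, kA Pf u v ∂nu :=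
          Measurable.lintegral_prod_left (f := kA Pf) hAm
        have n2 : Measurable fun v => ∫⁻ u, kB Pf u v ∂nu :=
          Measurable.lintegral_prod_left (f := kB Pf) hBm
        have n3 : Measurable fun v => ∫⁻ u, kA Pf v u ∂nu :=
          Measurable.lintegral_prod_right (f := kA Pf) hAm
        have n12 : Measurable fun v => ∫⁻ u, kA Pf u v ∂nu + ∫⁻ u, kB Pf u v ∂nu := n1.add n2
        rw [lintegral_add_left n12, lintegral_add_left n1, lintegral_add_left n3]
    _ ≤ (3 * IA * nu univ + 3 * IB * nu univ) + (3 * IA * nu univ + 3 * IB * nu univ) := by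
        gcongr
    _ = 6 * nu univ * (IA + IB) := by ring
    _ ≤ 6 * nu univ * ∫⁻ x, ENNReal.ofReal (x*(2-x)^2) * Pf (2*x) ∂nu := by
        gcongr
        exact sumI hP

end R859.FL
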