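import Pool.Agent.R859.FL.Rep

/-! Positivity of the functional of `w` on `[0,4]`. -/

open MeasureTheory Real Set
open scoped ENNReal

namespace R859.FL

open Polynomial in
lemma Lam_r (q : ℝ[X]) : Lam (fun i => r (i+1)) q = ∫ u, u * q.eval u ∂nu := by
  induction q using Polynomial.induction_on' with
  | add p q hp hq =>
    rw [map_add, hp, hq, ← integral_add (int_nu _ (by fun_prop)) (int_nu _ (by fun_prop))]
    congr 1
    ext u
    rw [eval_add]; ring
  | monomial i c =>
    rw [Lam_monomial]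
    unfold r
    rw [← integral_const_mul]
    congr 1
    ext u
    rw [eval_monomial]; ring

open Polynomial in
lemma Lam_A (q : ℝ[X]) : Lam (fun m => 2^m * (4 * r (m+1) - 4 * r (m+2) + r (m+3))) q
    = ∫ u, u * (2-u)^2 * q.eval (2*u) ∂nu := by
  induction q using Polynomial.induction_on' with
  | add p q hp hq =>
    rw [map_add, hp, hq, ← integral_add (int_nu _ (by fun_prop)) (int_nu _ (by fun_prop))]
    congr 1
    ext u
    rw [eval_add]; ring
  | monomial i c =>
    rw [Lam_monomial]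
    unfold r
    rw [← integral_const_mul, ← integral_const_mul, ← integral_sub (int_nu _ (by fun_prop)) (int_nu _ (by fun_prop)),
      ← integral_add (int_nu _ (by fun_prop)) (int_nu _ (by fun_prop)), ← integral_const_mul,
      ← integral_const_mul]
    congr 1
    ext u
    rw [eval_monomial]; ring

open Polynomial in
lemma main_ineq (p : ℝ[X]) (hp : ∀ t ∈ Icc (0:ℝ) 4, 0 ≤ p.eval t) :
    ∫ v, v * (Qp (fun i => r (i+1)) p).eval v ∂nu
      ≤ 6 * Nn * ∫ u, u * (2-u)^2 * p.eval (2*u) ∂nu := by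
  have hd := dom (Pf := fun z => ENNReal.ofReal (p.eval z)) (by fun_prop)
  have hpuv : ∀ u ∈ Ioo (0:ℝ) 2, ∀ v ∈ Ioo (0:ℝ) 2, 0 ≤ p.eval (u*v) := by
    intro u hu v hv
    apply hp
    have h1 := hu.1
    have h2 := hu.2
    have h3 := hv.1
    have h4 := hv.2
    constructor
    · positivity
    · nlinarith
  have hin : ∀ v ∈ Ioo (0:ℝ) 2,
      ∫⁻ u, ENNReal.ofReal ((u-v)^2*(u*v)) * ENNReal.ofReal (p.eval (u*v)) ∂nu
        = ENNReal.ofReal (v * (Qp (fun i => r (i+1)) p).eval v) := by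
    intro v hv
    have hv0 := hv.1
    have h1 : ∫⁻ u, ENNReal.ofReal ((u-v)^2*(u*v)) * ENNReal.ofReal (p.eval (u*v)) ∂nu
        = ∫⁻ u, ENNReal.ofReal ((u-v)^2*(u*v) * p.eval (u*v)) ∂nu := by
      apply lintegral_congr_ae
      filter_upwards [nu_ae] with u hu
      have := hu.1
      rw [← ENNReal.ofReal_mul (by positivity)]
    rw [h1, lint_eq (fun u => (u-v)^2*(u*v) * p.eval (u*v)) (by fun_prop)]
    · congr 1
      rw [Qp_eval, Lam_r, ← integral_const_mul]
      congr 1
      ext u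
      simp only [eval_mul, eval_comp, eval_pow, eval_sub, eval_C, eval_X]
      rw [mul_comm v u]
      ring
    · intro u hu
      have := hu.1
      have := hpuv u hu v hv
      positivity
  have hQ : ∀ v ∈ Ioo (0:ℝ) 2, 0 ≤ v * (Qp (fun i => r (i+1)) p).eval v := by
    intro v hv
    have hv0 := hv.1
    rw [Qp_eval, Lam_r]
    apply mul_nonneg hv0.le
    apply integral_nonneg_of_ae
    filter_upwards [nu_ae] with u hu
    have hu0 := hu.1
    have h2 := hpuv v hv u hu
    simp only [eval_mul, eval_comp, eval_pow, eval_sub, eval_C, eval_X, Pi.zero_apply]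
    positivity
  have hL : ∫⁻ v, ∫⁻ u, ENNReal.ofReal ((u-v)^2*(u*v)) * ENNReal.ofReal (p.eval (u*v)) ∂nu ∂nu
      = ENNReal.ofReal (∫ v, v * (Qp (fun i => r (i+1)) p).eval v ∂nu) := by
    rw [← lint_eq (fun v => v * (Qp (fun i => r (i+1)) p).eval v) (by fun_prop) hQ]
    apply lintegral_congr_ae
    filter_upwards [nu_ae] with v hv
    exact hin v hv
  have hA0 : ∀ u ∈ Ioo (0:ℝ) 2, 0 ≤ u * (2-u)^2 * p.eval (2*u) := by
    intro u hu
    have h1 := hu.1
    have h2 := hu.2
    have h3 : 0 ≤ p.eval (2*u) := hp _ ⟨by linarith, by linarith⟩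
    positivity
  have hR : ∫⁻ x, ENNReal.ofReal (x*(2-x)^2) * ENNReal.ofReal (p.eval (2*x)) ∂nu
      = ENNReal.ofReal (∫ u, u * (2-u)^2 * p.eval (2*u) ∂nu) := by
    rw [← lint_eq (fun u => u * (2-u)^2 * p.eval (2*u)) (by fun_prop) hA0]
    apply lintegral_congr_ae
    filter_upwards [nu_ae] with u hu
    have := hu.1
    rw [← ENNReal.ofReal_mul (by positivity)]
  have hAint : 0 ≤ ∫ u, u * (2-u)^2 * p.eval (2*u) ∂nu := by
    apply integral_nonneg_of_ae
    filter_upwards [nu_ae] with u hu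
    exact hA0 u hu
  rw [hL, hR, Nn_eq] at hd
  have h6 : (6:ℝ≥0∞) = ENNReal.ofReal 6 := by simp
  rw [h6, ← ENNReal.ofReal_mul (by norm_num), ← ENNReal.ofReal_mul (mul_nonneg (by norm_num) Nn_nonneg)] at hd
  exact (ENNReal.ofReal_le_ofReal_iff (mul_nonneg (mul_nonneg (by norm_num) Nn_nonneg) hAint)).1 hd

open Polynomial in
lemma Lam_lin (x y : ℕ → ℝ) (α β : ℝ) (p : ℝ[X]) :
    Lam (fun m => α * x m - β * y m) p = α * Lam x p - β * Lam y p := by
  induction p using Polynomial.induction_on' with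
  | add p q hp hq => rw [map_add, map_add, map_add, hp, hq]; ring
  | monomial i c => rw [Lam_monomial, Lam_monomial, Lam_monomial]; ring

open Polynomial in
lemma pos_w : PosOn 4 w := by
  intro p hp
  have hw : w = fun m => (1+Nn/4)/4 * (2^m * (4 * r (m+1) - 4 * r (m+2) + r (m+3)))
      - (1/16) * (r (m+1) * r (m+3) - r (m+2)^2) := by
    ext m; exact w_eq m
  rw [hw, Lam_lin, Lam_A]
  have h2 := Lam_Qp (fun i => r (i+1)) p
  rw [Lam_r] at h2
  have h3 := main_ineq p hp
  have e3 : Lam (fun m => r (m+1) * r (m+3) - r (m+2)^2) p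
      = Lam (fun n => r (n+1) * r (n+2+1) - r (n+1+1)^2) p := rfl
  rw [e3]
  have hA0 : 0 ≤ ∫ u, u * (2-u)^2 * p.eval (2*u) ∂nu := by
    apply integral_nonneg_of_ae
    filter_upwards [nu_ae] with u hu
    have h1 := hu.1
    have h2 := hu.2
    have h3 : 0 ≤ p.eval (2*u) := hp _ ⟨by linarith, by linarith⟩
    show 0 ≤ u * (2-u)^2 * p.eval (2*u)
    positivity
  set A := ∫ u, u * (2-u)^2 * p.eval (2*u) ∂nu with hA
  rw [h2] at h3
  have hN0 := Nn_nonneg
  have hN2 := Nn_le
  have h5 : 0 ≤ (2 - Nn) * A := mul_nonneg (by linarith) hA0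
  nlinarith

open Polynomial in
lemma pos_W (W : ℕ → ℝ) (hW : ∀ m, W (m+2) = 64^(m+2) * w m) : PosOn 256 (fun m => W (m+2)) := by
  intro p hp
  have h1 : Lam (fun m => W (m+2)) p = 64^2 * Lam w (p.comp (C 64 * X)) := by
    clear hp
    induction p using Polynomial.induction_on' with
    | add p q hp hq => rw [map_add, hp, hq, add_comp, map_add]; ring
    | monomial i c =>
      have e1 : (monomial i c).comp (C 64 * X) = monomial i (c * 64^i) := by
        rw [← C_mul_X_pow_eq_monomial, ← C_mul_X_pow_eq_monomial, mul_comp, C_comp, pow_comp, X_comp]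
        simp only [map_mul, map_pow]
        ring
      rw [e1, Lam_monomial, Lam_monomial, hW]
      ring
  rw [h1]
  apply mul_nonneg (by norm_num)
  apply pos_w
  intro t ht
  rw [eval_comp]
  apply hp
  simp only [eval_mul, eval_C, eval_X]
  exact ⟨by linarith [ht.1], by linarith [ht.2]⟩

end R859.FL
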