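import Pool.Agent.R859.FL.Nu

/-! The key inequality between the product measure and the dilated measure. -/

open MeasureTheory Real Set
open scoped ENNReal

namespace R859.FL

lemma coreA {u v : ℝ} (hu : 0 < u) (huv : u < v) (hv : v < 2) (h : u*v ≤ 1) :
    4*(v-u)^2 ≤ 3*v^2*((1-u)*(2-u)) := by
  have hv0 : 0 < v := hu.trans huv
  have hu1 : u < 1 := by nlinarith
  rcases le_total u (1/2) with h2 | h2
  · have h3 : v - u ≤ v*(1-u/2) := by nlinarith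
    have h4 : (v-u)^2 ≤ (v*(1-u/2))^2 := pow_le_pow_left₀ (by linarith) h3 2
    have h5 : (2-u) ≤ 3*(1-u) := by linarith
    have h6 : (2-u)*(2-u) ≤ 3*(1-u)*(2-u) := by
      apply mul_le_mul_of_nonneg_right h5 (by linarith)
    nlinarith [mul_le_mul_of_nonneg_left h6 (sq_nonneg v)]
  · have h3 : v - u ≤ v*(1-u^2) := by nlinarith [mul_le_mul_of_nonneg_left h hu.le]
    have h4 : (v-u)^2 ≤ (v*(1-u^2))^2 := pow_le_pow_left₀ (by linarith) h3 2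
    have h5 : 0 ≤ (1-u)*(4*(u-1/2)^2*(u+2)) := by
      have : 0 ≤ 1 - u := by linarith
      positivity
    have h6 : 4*(1-u^2)^2 ≤ 3*((1-u)*(2-u)) := by nlinarith
    nlinarith [mul_le_mul_of_nonneg_left h6 (sq_nonneg v)]

lemma coreB1 {u v : ℝ} (hu : 0 < u) (huv : u < v) (hv : v < 2) (h : 1 < u*v) :
    4*(v-u)^2*(2-v) ≤ 3*(v-1)*(u*v)^2 := by
  have hv0 : 0 < v := hu.trans huv
  have hv1 : 1 < v := by nlinarith
  have h1 : v*(v-u) ≤ v^2-1 := by nlinarith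
  have h2 : (v*(v-u))^2 ≤ (v^2-1)^2 := pow_le_pow_left₀ (by nlinarith) h1 2
  have h3 : 0 ≤ 3*v^2 - 4*((2-v)*(v-1)*(v+1)^2) := by
    nlinarith [sq_nonneg (2*v^2-v-2.7), sq_nonneg (v - 0.875)]
  have h4 : 4*(2-v)*(v^2-1)^2 ≤ 3*(v-1)*v^2 := by
    have : 0 ≤ (v-1)*(3*v^2 - 4*((2-v)*(v-1)*(v+1)^2)) := mul_nonneg (by linarith) h3
    nlinarith
  have h5 : 1 ≤ (u*v)^2 := by nlinarith
  have h6 : v^2 * (4*(v-u)^2*(2-v)) ≤ v^2 * (3*(v-1)*(u*v)^2) := by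
    calc v^2 * (4*(v-u)^2*(2-v)) = 4*(2-v)*(v*(v-u))^2 := by ring
      _ ≤ 4*(2-v)*(v^2-1)^2 := by
          apply mul_le_mul_of_nonneg_left h2
          linarith
      _ ≤ 3*(v-1)*v^2 := h4
      _ = (3*(v-1)*v^2)*1 := by ring
      _ ≤ (3*(v-1)*v^2)*(u*v)^2 := by
          apply mul_le_mul_of_nonneg_left h5
          have : 0 < v - 1 := by linarith
          positivity
      _ = v^2 * (3*(v-1)*(u*v)^2) := by ring
  exact le_of_mul_le_mul_left h6 (by positivity)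

lemma coreB2 {u v : ℝ} (hu : 0 < u) (huv : u < v) (hv : v < 2) (h : 2 ≤ u*v) :
    (v-u)^2*(2-v)*(u*v/2) ≤ 3*(2-u*v/2)^3*(v-1) := by
  have hv0 : 0 < v := hu.trans huv
  have hv1 : 1 < v := by nlinarith
  have h1 : v - u ≤ 2 - u*v/2 := by nlinarith
  have h2 : (v-u)^2 ≤ (2-u*v/2)^2 := pow_le_pow_left₀ (by linarith) h1 2
  have h3 : 2 ≤ v^2 := by nlinarith
  have h4 : u*v/2 ≤ v^2/2 := by nlinarith
  have h5 : (2-v)*(u*v/2) ≤ 3*(2-u*v/2)*(v-1) := by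
    have h6 : (2-v)*(u*v/2) ≤ (2-v)*(v^2/2) := mul_le_mul_of_nonneg_left h4 (by linarith)
    have h7 : (2-v)*(2+v)/2 ≤ 2-u*v/2 := by nlinarith
    have h8 : 3*((2-v)*(2+v)/2)*(v-1) ≤ 3*(2-u*v/2)*(v-1) := by
      apply mul_le_mul_of_nonneg_right _ (by linarith)
      linarith
    have h9 : (2-v)*(v^2/2) ≤ 3*((2-v)*(2+v)/2)*(v-1) := by
      have : 0 ≤ (2-v)*((3*v-2) + 2*(v^2-2)) := mul_nonneg (by linarith) (by linarith)
      nlinarith
    linarith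
  have hx : 0 ≤ 2 - u*v/2 := by linarith
  have hx0 : 0 ≤ u*v/2 := by positivity
  calc (v-u)^2*(2-v)*(u*v/2) = (v-u)^2*((2-v)*(u*v/2)) := by ring
    _ ≤ (2-u*v/2)^2*((2-v)*(u*v/2)) := by
        apply mul_le_mul_of_nonneg_right h2
        exact mul_nonneg (by linarith) hx0
    _ ≤ (2-u*v/2)^2*(3*(2-u*v/2)*(v-1)) := by
        apply mul_le_mul_of_nonneg_left h5 (by positivity)
    _ = 3*(2-u*v/2)^3*(v-1) := by ring

lemma aux1 {x : ℝ} (h : 0 < 2 - x) : 3*((x*(2-x)^2) * (4/π*x/(2-x)^2)) = 12/π*x^2 := by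
  field_simp
  ring

lemma aux2 {x : ℝ} (h : 0 < x) : 3*((x*(2-x)^2) * (4/π*(2-x)/x^2)) = 1/π * (12*(2-x)^3/x) := by
  field_simp
  ring

lemma ineqA {u v : ℝ} (hu : 0 < u) (huv : u < v) (hv : v < 2) (h : u*v ≤ 1) :
    (2/v) * (Gnu u * ((u-v)^2*(u*v))) ≤ 3*(((u*v/2)*(2-u*v/2)^2) * gnu (u*v/2)) := by
  have hv0 : 0 < v := hu.trans huv
  have hu1 : u < 1 := by nlinarith
  have hc := coreA hu huv hv h
  unfold Gnu gnu
  rw [if_pos hu1, if_pos (by linarith)]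
  have h1 : 0 < 1 - u := by linarith
  have h2 : 0 < 2 - u := by linarith
  have h3 : 0 < 2 - u*v/2 := by linarith
  have e1 : (2/v) * (2/π*u/((1-u)*(2-u)) * ((u-v)^2*(u*v))) = u^2/π * (4*(v-u)^2/((1-u)*(2-u))) := by
    field_simp
    ring
  have e2 : 3*(((u*v/2)*(2-u*v/2)^2) * (4/π*(u*v/2)/(2-u*v/2)^2)) = u^2/π * (3*v^2) := by
    rw [aux1 h3]
    ring
  rw [e1, e2]
  apply mul_le_mul_of_nonneg_left _ (by positivity)
  rw [div_le_iff₀ (by positivity)]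
  exact hc

lemma ineqB {u v : ℝ} (hu : 0 < u) (huv : u < v) (hv : v < 2) (h : 1 < u*v) :
    (2/u) * (Gnu v * ((u-v)^2*(u*v))) ≤ 3*(((u*v/2)*(2-u*v/2)^2) * gnu (u*v/2)) := by
  have hv0 : 0 < v := hu.trans huv
  have hv1 : 1 < v := by nlinarith
  have hx2 : u*v < 4 := by nlinarith
  have h1 : 0 < v - 1 := by linarith
  have h3 : 0 < 2 - u*v/2 := by linarith
  unfold Gnu gnu
  rw [if_neg (by linarith)]
  have e1 : (2/u) * (2/π*(2-v)/(v*(v-1)) * ((u-v)^2*(u*v))) = 1/π * (4*(v-u)^2*(2-v)/(v-1)) := by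
    field_simp
    ring
  rw [e1]
  by_cases hx : u*v/2 ≤ 1
  · rw [if_pos hx]
    have hc := coreB1 hu huv hv h
    have e2 : 3*(((u*v/2)*(2-u*v/2)^2) * (4/π*(u*v/2)/(2-u*v/2)^2)) = 1/π * (3*(u*v)^2) := by
      rw [aux1 h3]
      ring
    rw [e2]
    apply mul_le_mul_of_nonneg_left _ (by positivity)
    rw [div_le_iff₀ h1]
    linarith
  · rw [if_neg hx]
    push Not at hx
    have hc := coreB2 hu huv hv (by linarith)
    have e2 : 3*(((u*v/2)*(2-u*v/2)^2) * (4/π*(2-u*v/2)/(u*v/2)^2)) = 1/π * (12*(2-u*v/2)^3/(u*v/2)) :=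
      aux2 (by positivity)
    rw [e2]
    apply mul_le_mul_of_nonneg_left _ (by positivity)
    rw [div_le_div_iff₀ h1 (by positivity)]
    linarith

end R859.FL
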