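import Pool.Agent.R859.FL.Mom

/-! The arcsine weight and the density of `(P+M)/2` under the weight `(P-M)^2`. -/

open MeasureTheory Real Set
open scoped ENNReal

namespace R859.FL

noncomputable def kap (x : ℝ) : ℝ := (π * √(1 - x^2))⁻¹

lemma kap_nonneg (x : ℝ) : 0 ≤ kap x := by unfold kap; positivity

lemma kap_zero {x : ℝ} (h : 1 ≤ |x|) : kap x = 0 := by
  unfold kap
  have h1 : 1 - x^2 ≤ 0 := by
    have := sq_abs x
    nlinarith
  rw [Real.sqrt_eq_zero_of_nonpos h1]
  simp

lemma kap_neg (x : ℝ) : kap (-x) = kap x := by unfold kap; simp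

@[fun_prop]
lemma kap_meas : Measurable kap := by unfold kap; fun_prop

lemma lintegral_scale (f : ℝ → ℝ≥0∞) (hf : Measurable f) (c : ℝ) (hc : 0 < c) :
    ∫⁻ x, f (c * x) = ENNReal.ofReal c⁻¹ * ∫⁻ x, f x := by
  have h := Real.map_volume_mul_left hc.ne'
  have h2 := lintegral_map hf (measurable_const_mul c) (μ := volume)
  rw [h, lintegral_smul_measure, abs_of_pos (inv_pos.2 hc)] at h2
  rw [← h2]
  rfl

lemma cos_image : cos '' Ioo 0 π = Ioo (-1) 1 := by
  ext x
  constructor
  · rintro ⟨a, ⟨ha0, ha1⟩, rfl⟩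
    constructor
    · have := Real.strictAntiOn_cos ⟨ha0.le, ha1.le⟩ ⟨Real.pi_pos.le, le_refl π⟩ ha1
      simpa using this
    · have := Real.strictAntiOn_cos ⟨le_refl (0:ℝ), Real.pi_pos.le⟩ ⟨ha0.le, ha1.le⟩ ha0
      simpa using this
  · rintro ⟨h1, h2⟩
    refine ⟨arccos x, ⟨Real.arccos_pos.2 h2, ?_⟩, Real.cos_arccos h1.le h2.le⟩
    refine lt_of_le_of_ne (Real.arccos_le_pi x) ?_
    intro h
    have : cos (arccos x) = -1 := by rw [h, Real.cos_pi]
    rw [Real.cos_arccos h1.le h2.le] at this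
    linarith

lemma kap_lintegral (φ : ℝ → ℝ≥0∞) :
    ∫⁻ x, φ x * ENNReal.ofReal (kap x) = ∫⁻ a in Ioo 0 π, φ (cos a) * ENNReal.ofReal (π⁻¹) := by
  have h1 : ∫⁻ x, φ x * ENNReal.ofReal (kap x)
      = ∫⁻ x in Ioo (-1:ℝ) 1, φ x * ENNReal.ofReal (kap x) := by
    rw [← lintegral_indicator measurableSet_Ioo]
    congr 1
    ext x
    by_cases hx : x ∈ Ioo (-1:ℝ) 1
    · rw [indicator_of_mem hx]
    · rw [indicator_of_notMem hx]
      have : 1 ≤ |x| := by
        by_contra h
        push Not at h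
        exact hx (abs_lt.1 h)
      rw [kap_zero this]
      simp
  rw [h1, ← cos_image]
  rw [lintegral_image_eq_lintegral_abs_deriv_mul (f' := fun a => - sin a) measurableSet_Ioo
    (fun x _ => (Real.hasDerivAt_cos x).hasDerivWithinAt)
    (Real.injOn_cos.mono Ioo_subset_Icc_self)]
  apply setLIntegral_congr_fun measurableSet_Ioo
  intro a ha
  have hs : 0 < sin a := Real.sin_pos_of_pos_of_lt_pi ha.1 ha.2
  have hk : kap (cos a) = (π * sin a)⁻¹ := by
    unfold kap
    rw [← Real.sin_sq, Real.sqrt_sq hs.le]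
  simp only
  rw [hk, abs_neg, abs_of_pos hs]
  rw [mul_comm, mul_assoc, ← ENNReal.ofReal_mul (by positivity)]
  congr 2
  field_simp

/-- the weight in the coordinates `w, q` -/
noncomputable def wt (P M : ℝ) : ℝ := (P - M)^2 * kap P * kap M

lemma wt_nonneg (P M : ℝ) : 0 ≤ wt P M :=
  mul_nonneg (mul_nonneg (sq_nonneg _) (kap_nonneg _)) (kap_nonneg _)

lemma wt_meas : Measurable (Function.uncurry wt) := by
  unfold wt Function.uncurry; fun_prop

noncomputable def dens (w : ℝ) : ℝ≥0∞ := ∫⁻ q, ENNReal.ofReal (2 * wt (w + q) (w - q))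

lemma dens_meas : Measurable dens := by
  unfold dens
  apply Measurable.lintegral_prod_right'
    (f := fun p : ℝ × ℝ => ENNReal.ofReal (2 * wt (p.1 + p.2) (p.1 - p.2)))
  have : Measurable fun p : ℝ × ℝ => Function.uncurry wt (p.1 + p.2, p.1 - p.2) :=
    wt_meas.comp (by fun_prop)
  exact (this.const_mul 2).ennreal_ofReal

lemma dens_fubini (h : ℝ → ℝ≥0∞) (hm : Measurable h) :
    ∫⁻ w, h w * dens w = ∫⁻ P, ∫⁻ M, h ((P+M)/2) * ENNReal.ofReal (wt P M) := by
  have hw : ∀ {X : Type} [MeasurableSpace X] (f g : X → ℝ), Measurable f → Measurable g →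
      Measurable (fun x => wt (f x) (g x)) := by
    intro X _ f g hf hg
    exact wt_meas.comp (hf.prodMk hg)
  -- step 1
  have s1 : ∀ w, h w * dens w = ∫⁻ P, h w * ENNReal.ofReal (2 * wt P (2*w - P)) := by
    intro w
    unfold dens
    rw [← lintegral_const_mul]
    · rw [← lintegral_add_right_eq_self (fun P => h w * ENNReal.ofReal (2 * wt P (2*w - P))) w]
      congr 1
      ext q
      congr 3
      have e1 : q + w = w + q := by ring
      have e2 : 2 * w - (q + w) = w - q := by ring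
      rw [e1, ← e1, e2, e1]
    · exact ((hw (fun q => w + q) (fun q => w - q) (by fun_prop) (by fun_prop)).const_mul 2).ennreal_ofReal
  simp_rw [s1]
  rw [lintegral_lintegral_swap]
  · congr 1
    ext P
    have hmeas : Measurable (fun y => h (y/2) * ENNReal.ofReal (2 * wt P (y - P))) := by
      apply Measurable.mul
      · exact hm.comp (by fun_prop)
      · exact ((hw (fun _ => P) (fun y => y - P) (by fun_prop) (by fun_prop)).const_mul 2).ennreal_ofReal
    have h2 := lintegral_scale (fun y => h (y/2) * ENNReal.ofReal (2 * wt P (y - P))) hmeas 2 (by norm_num)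
    have h3 : ∫⁻ x, (fun y => h (y/2) * ENNReal.ofReal (2 * wt P (y - P))) (2 * x)
        = ∫⁻ w, h w * ENNReal.ofReal (2 * wt P (2*w - P)) := by
      congr 1
      ext x
      simp
    rw [h3] at h2
    rw [h2]
    rw [← lintegral_add_right_eq_self (fun y => h (y/2) * ENNReal.ofReal (2 * wt P (y - P))) P]
    rw [← lintegral_const_mul]
    · congr 1
      ext M
      have e1 : M + P - P = M := by ring
      have e2 : M + P = P + M := by ring
      rw [e1, e2]
      rw [ENNReal.ofReal_mul (by norm_num : (0:ℝ) ≤ 2)]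
      rw [mul_left_comm (h _) _ _, ← mul_assoc, ← ENNReal.ofReal_mul (by norm_num)]
      norm_num
    · exact hmeas.comp (by fun_prop)
  · apply Measurable.aemeasurable
    apply Measurable.mul
    · exact hm.comp (by fun_prop)
    · exact ((hw (fun p : ℝ × ℝ => p.2) (fun p => 2*p.1 - p.2) (by fun_prop) (by fun_prop)).const_mul 2).ennreal_ofReal

end R859.FL
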