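import Pool.Agent.R859.FL.Rec

/-! Angular integrals: `∫∫ ((cos a+cos b)/2)^(2k) (cos a-cos b)^2 = π^2 e k` on `[0,π]²`. -/

open MeasureTheory Real Set

namespace R859.FL

noncomputable def mu : ℕ → ℝ
  | 0 => 1
  | (k+1) => mu k * ((2*k+1)/(2*k+2))

lemma mu_succ (k : ℕ) : mu (k+1) = mu k * ((2*k+1)/(2*k+2)) := rfl

lemma m_eq_mu (k : ℕ) : m k = mu k ^ 2 := by
  induction k with
  | zero => simp [m, mu]
  | succ k ih => rw [m_succ, mu_succ, ih]; ring

lemma cos_int (k : ℕ) : ∫ x in (0:ℝ)..(2*π), cos x ^ (2*k) = 2 * π * mu k := by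
  induction k with
  | zero => simp [mu]
  | succ k ih =>
    have h : 2 * (k+1) = 2*k + 2 := by ring
    rw [h, integral_cos_pow, ih, mu_succ]
    simp
    ring

lemma cos_sin_int (k : ℕ) :
    ∫ x in (0:ℝ)..(2*π), cos x ^ (2*k) * sin x ^ 2 = 2 * π * (mu k / (2*k+2)) := by
  have h : ∀ x : ℝ, cos x ^ (2*k) * sin x ^ 2 = cos x ^ (2*k) - cos x ^ (2*(k+1)) := by
    intro x
    rw [Real.sin_sq]; ring
  simp_rw [h]
  rw [intervalIntegral.integral_sub, cos_int, cos_int, mu_succ]
  · field_simp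
    ring
  · exact (by fun_prop : Continuous fun x : ℝ => cos x ^ (2*k)).intervalIntegrable _ _
  · exact (by fun_prop : Continuous fun x : ℝ => cos x ^ (2*(k+1))).intervalIntegrable _ _

lemma rot (F : ℝ → ℝ → ℝ) (hF : Continuous (Function.uncurry F))
    (h1 : ∀ a b, F (a + 2*π) b = F a b) (h2 : ∀ a b, F a (b + 2*π) = F a b) :
    ∫ b in (0:ℝ)..(2*π), ∫ a in (0:ℝ)..(2*π), F (a - b) (a + b)
      = ∫ a in (0:ℝ)..(2*π), ∫ b in (0:ℝ)..(2*π), F a b := by
  have hc : ∀ {X : Type} [TopologicalSpace X] (f g : X → ℝ), Continuous f → Continuous g →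
      Continuous (fun x => F (f x) (g x)) := by
    intro X _ f g hf hg
    exact hF.comp (hf.prodMk hg)
  -- step 1
  have s1 : ∀ b : ℝ, ∫ a in (0:ℝ)..(2*π), F (a - b) (a + b)
      = ∫ a in (0:ℝ)..(2*π), F a (a + 2*b) := by
    intro b
    have hp : Function.Periodic (fun a => F (a - b) (a + b)) (2*π) := by
      intro a
      have e1 : a + 2*π - b = (a - b) + 2*π := by ring
      have e2 : a + 2*π + b = (a + b) + 2*π := by ring
      simp only [e1, e2, h1, h2]
    have h3 := hp.intervalIntegral_add_eq b 0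
    rw [zero_add] at h3
    rw [← h3]
    have h4 := intervalIntegral.integral_comp_add_right (a := 0) (b := 2*π)
      (fun a => F (a - b) (a + b)) b
    rw [zero_add] at h4
    rw [add_comm b (2*π), ← h4]
    congr 1
    ext a
    have e1 : a + b - b = a := by ring
    have e2 : a + b + b = a + 2*b := by ring
    rw [e1, e2]
  simp_rw [s1]
  rw [MeasureTheory.intervalIntegral_intervalIntegral_swap]
  · congr 1
    ext a
    have hp : Function.Periodic (fun b => F a b) (2*π) := fun b => h2 a b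
    have h5 : ∫ b in (0:ℝ)..(2*π), F a (a + 2*b) = (2:ℝ)⁻¹ • ∫ b in (a + 2*0)..(a + 2*(2*π)), F a b :=
      intervalIntegral.integral_comp_add_mul (fun b => F a b) (by norm_num : (2:ℝ) ≠ 0) a
    rw [h5]
    have hi : ∀ s t : ℝ, IntervalIntegrable (fun b => F a b) volume s t := fun s t =>
      (hc (fun _ : ℝ => a) (fun b => b) continuous_const continuous_id).intervalIntegrable _ _
    have h6 : ∫ b in (a + 2*0)..(a + 2*(2*π)), F a b
        = (∫ b in a..(a+2*π), F a b) + ∫ b in (a+2*π)..(a+2*π+2*π), F a b := by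
      rw [intervalIntegral.integral_add_adjacent_intervals (hi _ _) (hi _ _)]
      congr 1 <;> ring
    rw [h6]
    have h7 := hp.intervalIntegral_add_eq a 0
    have h8 := hp.intervalIntegral_add_eq (a+2*π) 0
    rw [zero_add] at h7 h8
    rw [h7, h8, smul_eq_mul]
    ring
  · have hcont : Continuous (Function.uncurry fun b a : ℝ => F a (a + 2*b)) :=
      hc (fun p : ℝ × ℝ => p.2) (fun p : ℝ × ℝ => p.2 + 2*p.1) (by fun_prop) (by fun_prop)
    have hK : IsCompact (Icc (0:ℝ) (2*π) ×ˢ Icc (0:ℝ) (2*π)) := isCompact_Icc.prod isCompact_Icc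
    refine (hcont.continuousOn.integrableOn_compact hK).mono_set ?_
    rw [uIoc_of_le (by positivity)]
    exact Set.prod_mono Ioc_subset_Icc_self Ioc_subset_Icc_self

lemma half (f : ℝ → ℝ) (hf : Continuous f) :
    ∫ a in (0:ℝ)..(2*π), f (cos a) = 2 * ∫ a in (0:ℝ)..π, f (cos a) := by
  have hi : ∀ s t : ℝ, IntervalIntegrable (fun b => f (cos b)) volume s t := fun s t =>
    (hf.comp continuous_cos).intervalIntegrable _ _
  rw [← intervalIntegral.integral_add_adjacent_intervals (hi 0 π) (hi π (2*π))]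
  have h := intervalIntegral.integral_comp_sub_left (a := 0) (b := π) (fun a => f (cos a)) (2*π)
  have e1 : 2*π - π = π := by ring
  rw [e1, sub_zero] at h
  rw [← h]
  have h2 : ∀ x : ℝ, f (cos (2*π - x)) = f (cos x) := by
    intro x; rw [Real.cos_two_pi_sub]
  simp_rw [h2]
  ring

lemma ang (k : ℕ) :
    ∫ a in (0:ℝ)..π, ∫ b in (0:ℝ)..π, ((cos a + cos b)/2)^(2*k) * (cos a - cos b)^2 = π^2 * e k := by
  have hc := rot (fun a b => ((cos a + cos b)/2)^(2*k) * (cos a - cos b)^2)
    (by unfold Function.uncurry; fun_prop)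
    (by intro a b; simp) (by intro a b; simp)
  have hl : ∫ b in (0:ℝ)..(2*π), ∫ a in (0:ℝ)..(2*π),
      ((cos (a-b) + cos (a+b))/2)^(2*k) * (cos (a-b) - cos (a+b))^2
      = 4 * (2 * π * (mu k / (2*k+2)))^2 := by
    have e1 : ∀ a b : ℝ, ((cos (a-b) + cos (a+b))/2)^(2*k) * (cos (a-b) - cos (a+b))^2
        = (4 * (cos b ^ (2*k) * sin b ^ 2)) * (cos a ^ (2*k) * sin a ^ 2) := by
      intro a b
      rw [Real.cos_sub, Real.cos_add]
      have : (cos a * cos b + sin a * sin b + (cos a * cos b - sin a * sin b))/2 = cos a * cos b := by ring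
      rw [this, mul_pow]
      ring
    simp_rw [e1, intervalIntegral.integral_const_mul, cos_sin_int, intervalIntegral.integral_mul_const,
      intervalIntegral.integral_const_mul, cos_sin_int]
    ring
  rw [hl] at hc
  have hin : ∀ a : ℝ, ∫ b in (0:ℝ)..(2*π), ((cos a + cos b)/2)^(2*k) * (cos a - cos b)^2
      = 2 * ∫ b in (0:ℝ)..π, ((cos a + cos b)/2)^(2*k) * (cos a - cos b)^2 := by
    intro a
    exact half (fun y => ((cos a + y)/2)^(2*k) * (cos a - y)^2) (by fun_prop)
  simp_rw [hin, intervalIntegral.integral_const_mul] at hc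
  have hout := half (fun x => ∫ b in (0:ℝ)..π, ((x + cos b)/2)^(2*k) * (x - cos b)^2) (by
    apply intervalIntegral.continuous_parametric_intervalIntegral_of_continuous' (by fun_prop))
  rw [hout] at hc
  unfold e
  rw [m_eq_mu]
  have hk : ((k:ℝ)+1) ≠ 0 := by positivity
  have : π^2 * (mu k ^ 2 / ((k:ℝ)+1)^2) = (4 * (2 * π * (mu k / (2*k+2)))^2)/4 := by
    field_simp
  rw [this, hc]
  ring

end R859.FL
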