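import Pool.Agent.R859.FL.Dens

/-! The finite measure `nu` on `(0,2)`. -/

open MeasureTheory Real Set
open scoped ENNReal

namespace R859.FL

noncomputable def nd (u : ℝ) : ℝ≥0∞ := dens (u-1) * ENNReal.ofReal ((u*(2-u))⁻¹)

@[fun_prop]
lemma nd_meas : Measurable nd := by
  unfold nd
  exact (dens_meas.comp (by fun_prop)).mul (by fun_prop)

noncomputable def nu : Measure ℝ := volume.withDensity nd

lemma abs_sub_lt {u : ℝ} : |u - 1| < 1 ↔ u ∈ Ioo (0:ℝ) 2 := by
  rw [abs_lt]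
  constructor
  · rintro ⟨h1, h2⟩; exact ⟨by linarith, by linarith⟩
  · rintro ⟨h1, h2⟩; exact ⟨by linarith, by linarith⟩

lemma nd_zero {u : ℝ} (h : u ∉ Ioo (0:ℝ) 2) : nd u = 0 := by
  have : 1 ≤ |u-1| := by
    by_contra hc
    push Not at hc
    exact h (abs_sub_lt.1 hc)
  unfold nd
  rw [dens_zero this, zero_mul]

lemma nd_symm (u : ℝ) : nd (2-u) = nd u := by
  unfold nd
  have e1 : 2 - u - 1 = -(u-1) := by ring
  have e2 : (2-u)*(2-(2-u)) = u*(2-u) := by ring
  rw [e1, e2, dens_neg]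

lemma lint_nu (h : ℝ → ℝ≥0∞) (hm : Measurable h) : ∫⁻ u, h u ∂nu = ∫⁻ u, nd u * h u := by
  unfold nu
  rw [lintegral_withDensity_eq_lintegral_mul _ nd_meas hm]
  rfl

lemma nu_compl : nu (Ioo (0:ℝ) 2)ᶜ = 0 := by
  unfold nu
  rw [withDensity_apply _ measurableSet_Ioo.compl]
  rw [setLIntegral_eq_zero measurableSet_Ioo.compl]
  intro u hu
  exact nd_zero hu

lemma nu_ae : ∀ᵐ u ∂nu, u ∈ Ioo (0:ℝ) 2 := by
  rw [ae_iff]
  exact nu_compl

lemma nu_moment (k : ℕ) :
    ∫⁻ u, ENNReal.ofReal ((u-1)^(2*k) * (u*(2-u))) ∂nu = ENNReal.ofReal (e k) := by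
  rw [lint_nu _ (by fun_prop), ← dens_moment k]
  rw [← lintegral_sub_right_eq_self (fun w => ENNReal.ofReal (w^(2*k)) * dens w) 1]
  congr 1
  ext u
  by_cases hu : u ∈ Ioo (0:ℝ) 2
  · unfold nd
    have hp : 0 < u*(2-u) := mul_pos hu.1 (by linarith [hu.2])
    rw [mul_assoc, ← ENNReal.ofReal_mul (by positivity), mul_comm]
    congr 2
    rw [mul_comm, mul_assoc, mul_inv_cancel₀ hp.ne', mul_one]
  · rw [nd_zero hu]
    have : 1 ≤ |u-1| := by
      by_contra hc
      push Not at hc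
      exact hu (abs_sub_lt.1 hc)
    rw [dens_zero this]
    simp

lemma dens_one : ∫⁻ u, dens (u-1) = 1 := by
  have h := dens_moment 0
  simp only [Nat.mul_zero, pow_zero, ENNReal.ofReal_one, one_mul] at h
  rw [lintegral_sub_right_eq_self (fun w => dens w) 1, h]
  simp [e, m]

lemma dens_le_abs {w : ℝ} (h0 : w ≠ 0) (h1 : |w| < 1) :
    dens w ≤ ENNReal.ofReal (2/π * (1-|w|)^2 / |w|) := by
  rcases le_total 0 w with h | h
  · rw [abs_of_nonneg h] at *
    exact dens_le (lt_of_le_of_ne h (Ne.symm h0)) h1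
  · rw [abs_of_nonpos h] at *
    rw [← dens_neg]
    exact dens_le (lt_of_le_of_ne (by linarith) (by intro hh; apply h0; linarith)) h1

lemma le_dens_abs {w : ℝ} (h0 : w ≠ 0) (h1 : |w| < 1) :
    ENNReal.ofReal (4/π * (1-|w|)^2 / (1+|w|)) ≤ dens w := by
  rcases le_total 0 w with h | h
  · rw [abs_of_nonneg h] at *
    exact le_dens (lt_of_le_of_ne h (Ne.symm h0)) h1
  · rw [abs_of_nonpos h] at *
    rw [← dens_neg]
    exact le_dens (lt_of_le_of_ne (by linarith) (by intro hh; apply h0; linarith)) h1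

lemma nd_le (u : ℝ) : nd u ≤ dens (u-1) + (Ioo (0:ℝ) 2).indicator (fun _ => ENNReal.ofReal (1/4)) u := by
  by_cases hu : u ∈ Ioo (0:ℝ) 2
  · rw [indicator_of_mem hu]
    unfold nd
    have hp : 0 < u*(2-u) := mul_pos hu.1 (by linarith [hu.2])
    have hw := abs_sub_lt.2 hu
    have e1 : (u*(2-u))⁻¹ = 1 + (u-1)^2/(u*(2-u)) := by
      rw [eq_comm, inv_eq_one_div, eq_div_iff hp.ne', add_mul, div_mul_cancel₀ _ hp.ne']
      ring
    rw [e1, ENNReal.ofReal_add (by norm_num) (by positivity), mul_add, ENNReal.ofReal_one, mul_one]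
    gcongr
    by_cases h0 : u - 1 = 0
    · rw [h0]; simp
    · refine (mul_le_mul_left (dens_le_abs h0 hw) _).trans ?_
      have hpos : 0 < |u-1| := abs_pos.2 h0
      rw [← ENNReal.ofReal_mul (by positivity)]
      apply ENNReal.ofReal_le_ofReal
      have e2 : (u-1)^2 = |u-1|^2 := (sq_abs _).symm
      have e3 : u*(2-u) = (1-|u-1|)*(1+|u-1|) := by
        have : (1-|u-1|)*(1+|u-1|) = 1 - |u-1|^2 := by ring
        rw [this, sq_abs]; ring
      rw [e2, e3]
      set y := |u-1| with hy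
      have hy1 : 0 < 1 - y := by linarith
      have e4 : 2/π * (1-y)^2/y * (y^2/((1-y)*(1+y))) = (2/π) * (y*(1-y)/(1+y)) := by
        field_simp
      rw [e4]
      have h2pi : 2/π ≤ 1 := by
        rw [div_le_one Real.pi_pos]
        linarith [Real.pi_gt_three]
      have h3 : y*(1-y)/(1+y) ≤ 1/4 := by
        rw [div_le_iff₀ (by linarith)]
        nlinarith [sq_nonneg (y - 1/2)]
      have h4 : 0 ≤ y*(1-y)/(1+y) := by positivity
      calc 2/π * (y*(1-y)/(1+y)) ≤ 1 * (y*(1-y)/(1+y)) := by gcongr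
        _ ≤ 1/4 := by linarith
  · rw [nd_zero hu]
    exact zero_le

lemma nu_univ_le : nu univ ≤ 2 := by
  have h : nu univ = ∫⁻ u, nd u := by
    unfold nu
    rw [withDensity_apply _ MeasurableSet.univ]
    simp
  rw [h]
  calc ∫⁻ u, nd u ≤ ∫⁻ u, (dens (u-1) + (Ioo (0:ℝ) 2).indicator (fun _ => ENNReal.ofReal (1/4)) u) :=
        lintegral_mono nd_le
    _ = 1 + ENNReal.ofReal (1/4) * ENNReal.ofReal 2 := by
        have hm : Measurable (fun u : ℝ => dens (u-1)) := dens_meas.comp (by fun_prop)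
        rw [lintegral_add_left hm, dens_one, lintegral_indicator measurableSet_Ioo]
        simp
    _ ≤ 2 := by
        rw [← ENNReal.ofReal_mul (by norm_num)]
        have : (1:ℝ≥0∞) = ENNReal.ofReal 1 := by simp
        rw [this, ← ENNReal.ofReal_add (by norm_num) (by norm_num)]
        have : (2:ℝ≥0∞) = ENNReal.ofReal 2 := by simp
        rw [this]
        apply ENNReal.ofReal_le_ofReal
        norm_num

instance : IsFiniteMeasure nu := ⟨lt_of_le_of_lt nu_univ_le (by norm_num)⟩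

noncomputable def Gnu (u : ℝ) : ℝ :=
  if u < 1 then 2/π * u/((1-u)*(2-u)) else 2/π * (2-u)/(u*(u-1))

noncomputable def gnu (u : ℝ) : ℝ :=
  if u ≤ 1 then 4/π * u/(2-u)^2 else 4/π * (2-u)/u^2

lemma nd_le_G {u : ℝ} (hu : u ∈ Ioo (0:ℝ) 2) (h1 : u ≠ 1) : nd u ≤ ENNReal.ofReal (Gnu u) := by
  have hp : 0 < u*(2-u) := mul_pos hu.1 (by linarith [hu.2])
  have hw := abs_sub_lt.2 hu
  have h0 : u - 1 ≠ 0 := sub_ne_zero.2 h1
  unfold nd
  refine (mul_le_mul_left (dens_le_abs h0 hw) _).trans ?_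
  rw [← ENNReal.ofReal_mul (by positivity)]
  apply ENNReal.ofReal_le_ofReal
  apply le_of_eq
  have h2u : 0 < 2 - u := by linarith [hu.2]
  unfold Gnu
  rcases lt_or_gt_of_ne h1 with h | h
  · rw [if_pos h, abs_of_neg (by linarith)]
    have : 0 < 1 - u := by linarith
    have hu0 := hu.1
    have e1 : 1 - -(u-1) = u := by ring
    have e2 : -(u-1) = 1 - u := by ring
    rw [e1, e2]
    field_simp
  · rw [if_neg (by linarith), abs_of_pos (by linarith)]
    have : 0 < u - 1 := by linarith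
    have hu0 := hu.1
    have e1 : 1 - (u-1) = 2 - u := by ring
    rw [e1]
    field_simp

lemma g_le_nd {u : ℝ} (hu : u ∈ Ioo (0:ℝ) 2) (h1 : u ≠ 1) : ENNReal.ofReal (gnu u) ≤ nd u := by
  have hp : 0 < u*(2-u) := mul_pos hu.1 (by linarith [hu.2])
  have hw := abs_sub_lt.2 hu
  have h0 : u - 1 ≠ 0 := sub_ne_zero.2 h1
  unfold nd
  refine le_trans ?_ (mul_le_mul_left (le_dens_abs h0 hw) _)
  rw [← ENNReal.ofReal_mul (by positivity)]
  apply ENNReal.ofReal_le_ofReal
  apply le_of_eq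
  have h2u : 0 < 2 - u := by linarith [hu.2]
  have hu0 := hu.1
  unfold gnu
  rcases lt_or_gt_of_ne h1 with h | h
  · rw [if_pos h.le, abs_of_neg (by linarith)]
    have e1 : 1 - -(u-1) = u := by ring
    have e2 : 1 + -(u-1) = 2 - u := by ring
    rw [e1, e2]
    field_simp
  · rw [if_neg (by linarith), abs_of_pos (by linarith)]
    have e1 : 1 - (u-1) = 2 - u := by ring
    have e2 : 1 + (u-1) = u := by ring
    rw [e1, e2]
    field_simp

lemma nu_map : nu.map (fun u => 2 - u) = nu := by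
  ext s hs
  rw [Measure.map_apply (by fun_prop) hs]
  unfold nu
  rw [withDensity_apply _ (hs.preimage (by fun_prop)), withDensity_apply _ hs]
  rw [← lintegral_indicator (hs.preimage (by fun_prop)), ← lintegral_indicator hs]
  rw [← lintegral_sub_left_eq_self _ 2]
  congr 1
  ext u
  have e1 : 2 - (2 - u) = u := by ring
  by_cases hus : u ∈ s
  · have h2 : 2 - u ∈ (fun u : ℝ => 2 - u) ⁻¹' s := by
      rw [mem_preimage, e1]; exact hus
    rw [indicator_of_mem h2, indicator_of_mem hus, nd_symm]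
  · have h2 : 2 - u ∉ (fun u : ℝ => 2 - u) ⁻¹' s := by
      rw [mem_preimage, e1]; exact hus
    rw [indicator_of_notMem h2, indicator_of_notMem hus]

end R859.FL
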