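import Mathlib

/-! The Fennessey-Larcombe-French sequence: `V n = 8^n v n` with
`v n = ∑ k, C(n,2k) a k`, `a k = (4k+1) m k`, `m k = (C(2k,k)/4^k)^2`. -/

namespace R859.FL

open Finset

/-- `m k = (C(2k,k)/4^k)^2`. -/
noncomputable def m : ℕ → ℝ
  | 0 => 1
  | (k+1) => m k * ((2*k+1)/(2*k+2))^2

noncomputable def a (k : ℕ) : ℝ := (4*k+1) * m k

noncomputable def e (k : ℕ) : ℝ := m k / ((k:ℝ)+1)^2

lemma m_succ (k : ℕ) : m (k+1) = m k * ((2*k+1)/(2*k+2))^2 := rfl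

lemma m_pos (k : ℕ) : 0 < m k := by
  induction k with
  | zero => simp [m]
  | succ k ih => rw [m_succ]; positivity

lemma a_succ_sub (k : ℕ) : a (k+1) - a k = e k / 4 := by
  unfold a e
  rw [m_succ]
  push_cast
  field_simp
  ring

noncomputable def v (n : ℕ) : ℝ := ∑ k ∈ range (n+1), (n.choose (2*k) : ℝ) * a k

lemma v_eq (n N : ℕ) (h : n + 1 ≤ N) : v n = ∑ k ∈ range N, (n.choose (2*k) : ℝ) * a k := by
  unfold v
  apply Finset.sum_subset
  · intro x hx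
    simp only [Finset.mem_range] at *
    omega
  · intro x _ hx
    simp only [Finset.mem_range] at hx
    rw [Nat.choose_eq_zero_of_lt (by omega)]
    simp

lemma ch1 (n k : ℕ) : ((n+1).choose (2*k) : ℝ) * (n+2) = ((n+2).choose (2*k) : ℝ) * (n+2-2*k) := by
  have h := Nat.choose_mul_succ_eq (n+1) (2*k)
  by_cases hk : 2*k ≤ n+2
  · have h2 : ((n+1+1 - 2*k : ℕ) : ℝ) = (n:ℝ)+2-2*k := by
      rw [Nat.cast_sub (by omega)]; push_cast; ring
    have h3 : (((n+1).choose (2*k) * (n+1+1) : ℕ) : ℝ) = (((n+1+1).choose (2*k) * (n+1+1-2*k) : ℕ) : ℝ) := by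
      rw [h]
    rw [Nat.cast_mul, Nat.cast_mul, h2] at h3
    rw [← h3]; push_cast; ring
  · rw [Nat.choose_eq_zero_of_lt (by omega), Nat.choose_eq_zero_of_lt (by omega)]; simp

lemma ch0 (n k : ℕ) : ((n).choose (2*k) : ℝ) * (n+1) = ((n+1).choose (2*k) : ℝ) * (n+1-2*k) := by
  have h := Nat.choose_mul_succ_eq (n) (2*k)
  by_cases hk : 2*k ≤ n+1
  · have h2 : ((n+1 - 2*k : ℕ) : ℝ) = (n:ℝ)+1-2*k := by
      rw [Nat.cast_sub (by omega)]; push_cast; ring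
    have h3 : (((n).choose (2*k) * (n+1) : ℕ) : ℝ) = (((n+1).choose (2*k) * (n+1-2*k) : ℕ) : ℝ) := by
      rw [h]
    rw [Nat.cast_mul, Nat.cast_mul, h2] at h3
    rw [← h3]; push_cast; ring
  · rw [Nat.choose_eq_zero_of_lt (by omega), Nat.choose_eq_zero_of_lt (by omega)]; simp

lemma ch2 (n j : ℕ) : (n.choose (j+1) : ℝ) * (j+1) = (n.choose j : ℝ) * (n - j) := by
  have h := Nat.choose_succ_right_eq n j
  by_cases hk : j ≤ n
  · have h3 : ((n.choose (j+1) * (j+1) : ℕ) : ℝ) = ((n.choose j * (n - j) : ℕ) : ℝ) := by rw [h]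
    rw [Nat.cast_mul, Nat.cast_mul, Nat.cast_sub hk] at h3
    push_cast at h3
    exact h3
  · rw [Nat.choose_eq_zero_of_lt (by omega), Nat.choose_eq_zero_of_lt (by omega)]; simp

noncomputable def G (n k : ℕ) : ℝ :=
  ((n+2).choose (2*k) : ℝ) * m k * 8 * (k:ℝ)^3 * (3*n^2+12*n+11-4*(n+2)^2*k) / ((n+1)*(n+2))

lemma wz (n k : ℕ) :
    ((n:ℝ)+2)^2*(n+1) * (((n+2).choose (2*k) : ℝ) * a k)
      - (n+1)*(3*n^2+11*n+9) * (((n+1).choose (2*k) : ℝ) * a k)
      + 2*n*(n+2)^2 * ((n.choose (2*k) : ℝ) * a k) = G n (k+1) - G n k := by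
  have h1 := ch1 n k
  have h0 := ch0 n k
  have h2 := ch2 (n+2) (2*k)
  have h3 := ch2 (n+2) (2*k+1)
  have hn1 : ((n:ℝ)+1) ≠ 0 := by positivity
  have hn2 : ((n:ℝ)+2) ≠ 0 := by positivity
  have hk1 : (2*(k:ℝ)+1) ≠ 0 := by positivity
  have hk2 : (2*(k:ℝ)+2) ≠ 0 := by positivity
  set X : ℝ := ((n+2).choose (2*k) : ℝ) with hX
  have e1 : ((n+1).choose (2*k) : ℝ) = X * (n+2-2*k) / (n+2) := by
    rw [eq_div_iff hn2]; exact h1
  have e0 : ((n).choose (2*k) : ℝ) = X * (n+2-2*k) * (n+1-2*k) / ((n+2)*(n+1)) := by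
    rw [eq_div_iff (by positivity)]
    have : ((n).choose (2*k) : ℝ) * ((n+2)*(n+1)) = (n.choose (2*k) * (n+1)) * (n+2) := by ring
    rw [this, h0, e1]
    field_simp
  have e2 : ((n+2).choose (2*k+1) : ℝ) = X * (n+2-2*k) / (2*k+1) := by
    rw [eq_div_iff hk1]
    push_cast at h2
    exact h2
  have e3 : ((n+2).choose (2*(k+1)) : ℝ) = X * (n+2-2*k) * (n+1-2*k) / ((2*k+1)*(2*k+2)) := by
    rw [eq_div_iff (by positivity)]
    have h4 : ((n+2).choose (2*k+1+1) : ℝ) * (2*k+2) = ((n+2).choose (2*k+1) : ℝ) * (n+1-2*k) := by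
      push_cast at h3
      have : (2*(k:ℝ)+2) = 2*k+1+1 := by ring
      rw [this, h3]; ring
    have h5 : 2*(k+1) = 2*k+1+1 := by ring
    rw [h5]
    have : ((n+2).choose (2*k+1+1) : ℝ) * ((2*k+1)*(2*k+2)) = (((n+2).choose (2*k+1+1) : ℝ) * (2*k+2)) * (2*k+1) := by ring
    rw [this, h4, e2]
    field_simp
  unfold G
  rw [e3, e1, e0, m_succ]
  unfold a
  push_cast
  field_simp
  ring

lemma v_rec (n : ℕ) :
    ((n:ℝ)+2)^2*(n+1) * v (n+2) - (n+1)*(3*n^2+11*n+9) * v (n+1) + 2*n*(n+2)^2 * v n = 0 := by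
  rw [v_eq (n+2) (n+3) (by omega), v_eq (n+1) (n+3) (by omega), v_eq n (n+3) (by omega)]
  rw [Finset.mul_sum, Finset.mul_sum, Finset.mul_sum, ← Finset.sum_sub_distrib, ← Finset.sum_add_distrib]
  rw [Finset.sum_congr rfl (fun k _ => wz n k)]
  rw [Finset.sum_range_sub]
  unfold G
  rw [Nat.choose_eq_zero_of_lt (by omega : n + 2 < 2*(n+3))]
  simp

lemma v_zero : v 0 = 1 := by simp [v, a, m]
lemma v_one : v 1 = 1 := by simp [v, a, m, Finset.sum_range_succ]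

theorem V_eq (V : ℕ → ℝ) (h0 : V 0 = 1) (h1 : V 1 = 8)
    (hrec : ∀ n : ℕ, 2 ≤ n → V n = 8*(3*n^2-n-1)/n^2 * V (n-1) - 128*(n-2)/(n-1) * V (n-2)) (n : ℕ) :
    V n = 8^n * v n := by
  induction n using Nat.strong_induction_on with
  | _ n ih =>
    match n with
    | 0 => rw [h0, v_zero]; norm_num
    | 1 => rw [h1, v_one]; norm_num
    | (n+2) =>
      rw [hrec (n+2) (by omega)]
      have e1 : n + 2 - 1 = n + 1 := by omega
      have e2 : n + 2 - 2 = n := by omega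
      rw [e1, e2, ih (n+1) (by omega), ih n (by omega)]
      have h := v_rec n
      have hn1 : ((n:ℝ)+1) ≠ 0 := by positivity
      have hn2 : ((n:ℝ)+2) ≠ 0 := by positivity
      have hv : v (n+2) = ((n+1)*(3*n^2+11*n+9) * v (n+1) - 2*n*(n+2)^2 * v n) / (((n:ℝ)+2)^2*(n+1)) := by
        rw [eq_div_iff (by positivity)]
        linarith
      rw [hv]
      push_cast
      have h5 : ((n:ℝ)+2-1) = n+1 := by ring
      have h6 : ((n:ℝ)+2-2) = n := by ring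
      rw [h5, h6]
      field_simp
      ring

end R859.FL
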