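import Mathlib

/-! Positive sequences on `[0,B]` (Stieltjes-type positivity) and stability under `L`. -/

open Polynomial

namespace R859.FL

/-- the linear functional `X^i ↦ x i` -/
noncomputable def Lam (x : ℕ → ℝ) : ℝ[X] →ₗ[ℝ] ℝ :=
  Polynomial.lsum (fun i => (x i) • (LinearMap.id : ℝ →ₗ[ℝ] ℝ))

lemma Lam_monomial (x : ℕ → ℝ) (i : ℕ) (c : ℝ) : Lam x (monomial i c) = c * x i := by
  unfold Lam
  rw [Polynomial.lsum_apply, Polynomial.sum_monomial_index]
  · simp [mul_comm]
  · simp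

/-- positivity on polynomials nonnegative on `[0,B]` -/
def PosOn (B : ℝ) (x : ℕ → ℝ) : Prop :=
  ∀ p : ℝ[X], (∀ t ∈ Set.Icc 0 B, 0 ≤ p.eval t) → 0 ≤ Lam x p

lemma PosOn.nonneg {B : ℝ} {x : ℕ → ℝ} (h : PosOn B x) (n : ℕ) : 0 ≤ x n := by
  have := h (monomial n 1) (by
    intro t ht
    rw [eval_monomial, one_mul]
    exact pow_nonneg ht.1 n)
  rw [Lam_monomial, one_mul] at this
  exact this

noncomputable def Qp (x : ℕ → ℝ) : ℝ[X] →ₗ[ℝ] ℝ[X] :=
  Polynomial.lsum (fun i => LinearMap.toSpanSingleton ℝ ℝ[X]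
    (monomial i (x (i+2)) - monomial (i+1) (2 * x (i+1)) + monomial (i+2) (x i)))

lemma Qp_monomial (x : ℕ → ℝ) (i : ℕ) (c : ℝ) :
    Qp x (monomial i c) = monomial i (c * x (i+2)) - monomial (i+1) (c * (2 * x (i+1)))
      + monomial (i+2) (c * x i) := by
  unfold Qp
  rw [Polynomial.lsum_apply, Polynomial.sum_monomial_index]
  · simp [smul_add, smul_sub, smul_monomial]
  · simp

lemma Qp_eval (x : ℕ → ℝ) (p : ℝ[X]) (t : ℝ) :
    (Qp x p).eval t = Lam x ((p.comp (C t * X)) * (X - C t)^2) := by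
  induction p using Polynomial.induction_on' with
  | add p q hp hq =>
    rw [map_add, eval_add, hp, hq, add_comp, add_mul, map_add]
  | monomial i c =>
    rw [Qp_monomial]
    have e1 : ((monomial i c).comp (C t * X)) * (X - C t)^2
        = monomial (i+2) (c*t^i) - monomial (i+1) (c*t^i*(2*t)) + monomial i (c*t^i*t^2) := by
      rw [← C_mul_X_pow_eq_monomial, ← C_mul_X_pow_eq_monomial, ← C_mul_X_pow_eq_monomial,
        ← C_mul_X_pow_eq_monomial]
      rw [mul_comp, C_comp, pow_comp, X_comp]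
      simp only [map_mul, map_pow, map_ofNat]
      ring
    rw [e1, map_add, map_sub, Lam_monomial, Lam_monomial, Lam_monomial]
    rw [eval_add, eval_sub, eval_monomial, eval_monomial, eval_monomial]
    ring

lemma Lam_Qp (x : ℕ → ℝ) (p : ℝ[X]) :
    Lam x (Qp x p) = 2 * Lam (fun n => x n * x (n+2) - x (n+1)^2) p := by
  induction p using Polynomial.induction_on' with
  | add p q hp hq => rw [map_add, map_add, hp, hq, map_add]; ring
  | monomial i c =>
    rw [Qp_monomial, map_add, map_sub, Lam_monomial, Lam_monomial, Lam_monomial, Lam_monomial]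
    ring

lemma PosOn.step {B : ℝ} {x : ℕ → ℝ} (h : PosOn B x) :
    PosOn (B*B) (fun n => x n * x (n+2) - x (n+1)^2) := by
  intro p hp
  have h1 : 0 ≤ Lam x (Qp x p) := by
    apply h
    intro t ht
    rw [Qp_eval]
    apply h
    intro s hs
    rw [eval_mul, eval_comp]
    apply mul_nonneg
    · apply hp
      simp only [eval_mul, eval_C, eval_X]
      exact ⟨mul_nonneg ht.1 hs.1, mul_le_mul ht.2 hs.2 hs.1 (ht.1.trans ht.2)⟩
    · simp only [eval_pow]
      positivity
  rw [Lam_Qp] at h1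
  linarith

/-- the operator `L` -/
def Lop (x : ℕ → ℝ) : ℕ → ℝ := fun n => x (n-1) * x (n+1) - x n ^ 2

theorem inf_log_convex (W : ℕ → ℝ) (B : ℝ) (h : PosOn B (fun m => W (m+2))) (k : ℕ) :
    ∃ B' : ℝ, PosOn B' (fun m => (Lop^[k] W) (m+2+k)) := by
  induction k with
  | zero => exact ⟨B, h⟩
  | succ k ih =>
    obtain ⟨B', hB'⟩ := ih
    refine ⟨B'*B', ?_⟩
    have := hB'.step
    convert this using 2 with m
    rw [Function.iterate_succ_apply']
    unfold Lop
    have e1 : m + 2 + (k+1) - 1 = m + 2 + k := by omega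
    have e2 : m + 2 + (k+1) + 1 = m + 2 + 2 + k := by omega
    have e3 : m + 2 + (k+1) = m + 1 + 2 + k := by omega
    rw [e1, e2, e3]

theorem inf_log_convex' (W : ℕ → ℝ) (B : ℝ) (h : PosOn B (fun m => W (m+2))) (k n : ℕ)
    (hn : k + 2 ≤ n) : 0 ≤ (Lop^[k] W) n := by
  obtain ⟨B', hB'⟩ := inf_log_convex W B h k
  have := hB'.nonneg (n - 2 - k)
  have e : n - 2 - k + 2 + k = n := by omega
  simp only [e] at this
  exact this

end R859.FL
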