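import Pool.Agent.R859.FL.Dom
import Pool.Agent.R859.FL.Stj

/-! Real-valued integral representation and positivity. -/

open MeasureTheory Real Set
open scoped ENNReal

namespace R859.FL

lemma int_nu (f : ℝ → ℝ) (hf : Continuous f) : Integrable f nu := by
  obtain ⟨C, hC⟩ := (isCompact_Icc (a := (0:ℝ)) (b := 2)).exists_bound_of_continuousOn hf.continuousOn
  apply Integrable.of_bound hf.aestronglyMeasurable C
  filter_upwards [nu_ae] with u hu
  exact hC u ⟨hu.1.le, hu.2.le⟩

lemma lint_eq (f : ℝ → ℝ) (hf : Continuous f) (h0 : ∀ u ∈ Ioo (0:ℝ) 2, 0 ≤ f u) :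
    ∫⁻ u, ENNReal.ofReal (f u) ∂nu = ENNReal.ofReal (∫ u, f u ∂nu) := by
  rw [ofReal_integral_eq_lintegral_ofReal (int_nu f hf)]
  filter_upwards [nu_ae] with u hu
  exact h0 u hu

noncomputable def Nn : ℝ := ∫ _u, (1:ℝ) ∂nu

lemma Nn_eq : nu univ = ENNReal.ofReal Nn := by
  have h := lint_eq (fun _ => 1) continuous_const (fun _ _ => by norm_num)
  simp only [ENNReal.ofReal_one, lintegral_const, one_mul] at h
  rw [h]; rfl

lemma Nn_nonneg : 0 ≤ Nn := integral_nonneg (fun _ => by norm_num)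

lemma Nn_le : Nn ≤ 2 := by
  have h := nu_univ_le
  rw [Nn_eq] at h
  have : (2:ℝ≥0∞) = ENNReal.ofReal 2 := by simp
  rw [this, ENNReal.ofReal_le_ofReal_iff (by norm_num)] at h
  exact h

noncomputable def s (k : ℕ) : ℝ := ∫ u, (u-1)^(2*k) ∂nu

lemma s_zero : s 0 = Nn := by simp [s, Nn]

lemma e_nonneg (k : ℕ) : 0 ≤ e k := by unfold e; have := m_pos k; positivity

lemma s_sub (k : ℕ) : s k - s (k+1) = e k := by
  unfold s
  rw [← integral_sub (int_nu _ (by fun_prop)) (int_nu _ (by fun_prop))]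
  have h := nu_moment k
  rw [lint_eq (fun u => (u-1)^(2*k) * (u*(2-u))) (by fun_prop)] at h
  · have h2 : 0 ≤ ∫ u, (u-1)^(2*k) * (u*(2-u)) ∂nu := by
      apply integral_nonneg_of_ae
      filter_upwards [nu_ae] with u hu
      have h1 := hu.1
      have h2 : 0 < 2 - u := by linarith [hu.2]
      have h3 : 0 ≤ (u-1)^(2*k) := by rw [pow_mul]; positivity
      show 0 ≤ (u-1)^(2*k) * (u*(2-u))
      positivity
    have h3 := (ENNReal.ofReal_eq_ofReal_iff h2 (e_nonneg k)).1 h
    rw [← h3]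
    congr 1
    ext u
    ring
  · intro u hu
    have h1 := hu.1
    have h2 : 0 < 2 - u := by linarith [hu.2]
    have h3 : 0 ≤ (u-1)^(2*k) := by rw [pow_mul]; positivity
    positivity

lemma a_eq (k : ℕ) : a k = 1 + Nn/4 - s k/4 := by
  induction k with
  | zero => rw [s_zero]; simp [a, m]
  | succ k ih =>
    have h1 := a_succ_sub k
    have h2 := s_sub k
    linarith

lemma even_binom (n : ℕ) (y : ℝ) : ∀ N : ℕ, n + 1 ≤ N →
    (∑ k ∈ Finset.range N, (n.choose (2*k) : ℝ) * y^(2*k) = ((1+y)^n + (1-y)^n)/2) ∧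
    (∑ k ∈ Finset.range N, (n.choose (2*k+1) : ℝ) * y^(2*k+1) = ((1+y)^n - (1-y)^n)/2) := by
  induction n with
  | zero =>
    intro N hN
    constructor
    · rw [Finset.sum_eq_single 0]
      · simp
      · intro b _ hb
        rw [Nat.choose_eq_zero_of_lt (by omega)]; simp
      · intro h; exfalso; apply h; simp; omega
    · rw [Finset.sum_eq_zero]
      · simp
      · intro b _
        rw [Nat.choose_eq_zero_of_lt (by omega)]; simp
  | succ n ih =>
    intro N hN
    obtain ⟨N', rfl⟩ : ∃ N', N = N' + 1 := ⟨N-1, by omega⟩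
    obtain ⟨hE, hO⟩ := ih (N'+1) (by omega)
    constructor
    · have h1 : ∑ k ∈ Finset.range (N'+1), ((n+1).choose (2*k) : ℝ) * y^(2*k)
          = ∑ k ∈ Finset.range (N'+1), (n.choose (2*k) : ℝ) * y^(2*k)
            + y * ∑ k ∈ Finset.range (N'+1), (n.choose (2*k+1) : ℝ) * y^(2*k+1) := by
        have h2 : ∑ k ∈ Finset.range (N'+1), (n.choose (2*k+1) : ℝ) * y^(2*k+1)
            = ∑ k ∈ Finset.range N', (n.choose (2*k+1) : ℝ) * y^(2*k+1) := by
          rw [Finset.sum_range_succ, Nat.choose_eq_zero_of_lt (by omega : n < 2*N'+1)]; simp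
        rw [h2, Finset.sum_range_succ', Finset.sum_range_succ' (fun k => (n.choose (2*k) : ℝ) * y^(2*k)),
          Finset.mul_sum]
        have h3 : ∀ k ∈ Finset.range N', ((n+1).choose (2*(k+1)) : ℝ) * y^(2*(k+1))
            = (n.choose (2*(k+1)) : ℝ) * y^(2*(k+1)) + y * ((n.choose (2*k+1) : ℝ) * y^(2*k+1)) := by
          intro k _
          have e1 : 2*(k+1) = (2*k+1)+1 := by ring
          rw [e1, Nat.choose_succ_succ]
          push_cast
          ring
        rw [Finset.sum_congr rfl h3, Finset.sum_add_distrib]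
        simp
        ring
      rw [h1, hE, hO]
      ring
    · have h1 : ∑ k ∈ Finset.range (N'+1), ((n+1).choose (2*k+1) : ℝ) * y^(2*k+1)
          = ∑ k ∈ Finset.range (N'+1), (n.choose (2*k+1) : ℝ) * y^(2*k+1)
            + y * ∑ k ∈ Finset.range (N'+1), (n.choose (2*k) : ℝ) * y^(2*k) := by
        rw [Finset.mul_sum, ← Finset.sum_add_distrib]
        apply Finset.sum_congr rfl
        intro k _
        rw [Nat.choose_succ_succ]
        push_cast
        ring
      rw [h1, hE, hO]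
      ring

noncomputable def r (n : ℕ) : ℝ := ∫ u, u^n ∂nu

lemma r_symm (n : ℕ) : ∫ u, (2-u)^n ∂nu = r n := by
  unfold r
  have h : ∫ u, u^n ∂nu = ∫ u, u^n ∂(nu.map (fun u => 2 - u)) := by rw [nu_map]
  rw [h, integral_map (by fun_prop) (by fun_prop)]

lemma v_rep (n : ℕ) : v (n+1) = (1 + Nn/4) * 2^n - r (n+1)/4 := by
  rw [v_eq (n+1) (n+2) (by omega)]
  simp_rw [a_eq, mul_sub, Finset.sum_sub_distrib, ← Finset.sum_mul]
  have h1 : ∑ k ∈ Finset.range (n+2), ((n+1).choose (2*k) : ℝ) = 2^n := by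
    have h := (even_binom (n+1) 1 (n+2) (by omega)).1
    simp only [one_pow, mul_one] at h
    rw [h]
    norm_num
    rw [pow_succ]; ring
  rw [h1]
  have h2 : ∑ k ∈ Finset.range (n+2), ((n+1).choose (2*k) : ℝ) * (s k/4) = r (n+1)/4 := by
    have h3 : ∀ k, ((n+1).choose (2*k) : ℝ) * (s k/4)
        = (∫ u, ((n+1).choose (2*k) : ℝ) * (u-1)^(2*k) ∂nu)/4 := by
      intro k
      unfold s
      rw [integral_const_mul]; ring
    simp_rw [h3]
    rw [← Finset.sum_div, ← integral_finsetSum _ (fun k _ => int_nu _ (by fun_prop))]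
    congr 1
    have h4 : ∀ u : ℝ, ∑ k ∈ Finset.range (n+2), ((n+1).choose (2*k) : ℝ) * (u-1)^(2*k)
        = (u^(n+1) + (2-u)^(n+1))/2 := by
      intro u
      rw [(even_binom (n+1) (u-1) (n+2) (by omega)).1]
      congr 2 <;> ring
    simp_rw [h4]
    rw [integral_div, integral_add (int_nu _ (by fun_prop)) (int_nu _ (by fun_prop)), r_symm]
    unfold r
    ring
  rw [h2]
  ring

noncomputable def w (m : ℕ) : ℝ := v (m+2)^2 - v (m+1) * v (m+3)

lemma w_eq (m : ℕ) : w m = (1+Nn/4)/4 * (2^m * (4 * r (m+1) - 4 * r (m+2) + r (m+3)))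
    - (1/16) * (r (m+1) * r (m+3) - r (m+2)^2) := by
  unfold w
  rw [v_rep (m+1), v_rep m, v_rep (m+2)]
  ring

end R859.FL
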